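import Pool.Agent.V113.Smo.Upd

open scoped ENNReal

namespace Pool.V113.Smo

set_option linter.unusedSectionVars false

theorem avgF_mono {α : Type} [Fintype α] (h h' : α → ℝ) (hh : ∀ a, h a ≤ h' a) :
    avgF h ≤ avgF h' :=
  div_le_div_of_nonneg_right (Finset.sum_le_sum fun a _ => hh a) (Nat.cast_nonneg _)

theorem avgL_mono {α : Type} (l : List α) (h h' : α → ℝ) (hh : ∀ a ∈ l, h a ≤ h' a) :
    avgL l h ≤ avgL l h' := by
  refine div_le_div_of_nonneg_right ?_ (Nat.cast_nonneg _)
  induction l with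
  | nil => simp
  | cons a l ih =>
    rw [List.map_cons, List.sum_cons, List.map_cons, List.sum_cons]
    exact add_le_add (hh a List.mem_cons_self) (ih fun b hb => hh b (List.mem_cons_of_mem _ hb))

variable {n : ℕ} [NeZero n]

/-- `Z` is a possible outcome of HVL-Prime applied to `X`. -/
def Out : GP n → GP n → Prop
  | none, Z => ∃ c : Lit n, Z = some (Tr.leaf c)
  | some t, Z => (∃ c : Lit n, ∃ z ∈ t.ins c, Z = some z) ∨ Z ∈ t.del ∨
      (∃ c : Lit n, ∃ z ∈ t.sub c, Z = some z)

theorem hvlE_mono (X : GP n) (h h' : GP n → ℝ) (hh : ∀ Z, Out X Z → h Z ≤ h' Z) :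
    hvlE X h ≤ hvlE X h' := by
  cases X with
  | none => exact avgF_mono _ _ fun c => hh _ ⟨c, rfl⟩
  | some t =>
    have h1 : avgF (fun c : Lit n => avgL (t.ins c) (fun z => h (some z))) ≤
        avgF (fun c : Lit n => avgL (t.ins c) (fun z => h' (some z))) :=
      avgF_mono _ _ fun c => avgL_mono _ _ _ fun z hz => hh _ (Or.inl ⟨c, z, hz, rfl⟩)
    have h2 : avgL t.del h ≤ avgL t.del h' :=
      avgL_mono _ _ _ fun z hz => hh _ (Or.inr (Or.inl hz))
    have h3 : avgF (fun c : Lit n => avgL (t.sub c) (fun z => h (some z))) ≤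
        avgF (fun c : Lit n => avgL (t.sub c) (fun z => h' (some z))) :=
      avgF_mono _ _ fun c => avgL_mono _ _ _ fun z hz => hh _ (Or.inr (Or.inr ⟨c, z, hz, rfl⟩))
    unfold hvlE
    linarith

theorem stepE_mono (P : Finset (GP n)) (h h' : Finset (GP n) → ℝ)
    (hh : ∀ X ∈ P, ∀ Z, Out X Z → h (upd P Z) ≤ h' (upd P Z)) : stepE P h ≤ stepE P h' :=
  div_le_div_of_nonneg_right (Finset.sum_le_sum fun X hX => hvlE_mono X _ _ (hh X hX))
    (Nat.cast_nonneg _)

theorem stepE_nonneg (P : Finset (GP n)) (h : Finset (GP n) → ℝ) (h0 : ∀ P, 0 ≤ h P) :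
    0 ≤ stepE P h :=
  div_nonneg (Finset.sum_nonneg fun X _ => hvlE_nonneg X _ fun _ => h0 _) (Nat.cast_nonneg _)

theorem ev_add {α : Type} (p : PMF α) (f g : α → ℝ≥0∞) :
    ev p (fun a => f a + g a) = ev p f + ev p g := by
  unfold ev
  rw [← ENNReal.tsum_add]
  exact tsum_congr fun a => mul_add _ _ _

theorem ev_zero {α : Type} (p : PMF α) : ev p (fun _ => 0) = 0 := by
  unfold ev; simp

theorem ev_le_one {α : Type} (p : PMF α) (f : α → ℝ≥0∞) (hf : ∀ a, f a ≤ 1) : ev p f ≤ 1 := by
  unfold ev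
  rw [← p.tsum_coe]
  exact ENNReal.tsum_le_tsum fun a => (mul_le_mul_right (hf a) _).trans (mul_one _).le

theorem ev_sum {α : Type} (p : PMF α) (f : ℕ → α → ℝ≥0∞) (m : ℕ) :
    ev p (fun a => ∑ t ∈ Finset.range m, f t a) = ∑ t ∈ Finset.range m, ev p (f t) := by
  induction m with
  | zero => simp [ev_zero]
  | succ m ih =>
    rw [Finset.sum_range_succ, ← ih, ← ev_add]
    congr 1
    funext a
    rw [Finset.sum_range_succ]

theorem surv_le_one (t : ℕ) (P : Finset (GP n)) : surv t P ≤ 1 := by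
  induction t generalizing P with
  | zero =>
    unfold surv
    split_ifs
    · exact zero_le
    · exact le_rfl
  | succ t ih =>
    unfold surv
    split_ifs
    · exact zero_le
    · exact ev_le_one (step P) _ (fun Q => ih Q)

theorem surv_opt (t : ℕ) (P : Finset (GP n)) (h : Opt P) : surv t P = 0 := by
  cases t <;> (unfold surv; exact if_pos h)

theorem drift (I : Finset (GP n) → Prop) (hne : ∀ P, I P → P.Nonempty)
    (hcl : ∀ P, I P → ∀ X ∈ P, ∀ Z, Out X Z → I (upd P Z))
    (Ψ : Finset (GP n) → ℝ) (h0 : ∀ P, 0 ≤ Ψ P)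
    (hd : ∀ P, I P → ¬ Opt P → ET P ≤ ENNReal.ofReal (Ψ P) ∨ stepE P Ψ + 1 ≤ Ψ P) :
    ∀ P, I P → ET P ≤ ENNReal.ofReal (Ψ P) := by
  have key : ∀ m : ℕ, ∀ P, I P → ∑ t ∈ Finset.range m, surv t P ≤ ENNReal.ofReal (Ψ P) := by
    intro m
    induction m with
    | zero => intro P _; simp
    | succ m ih =>
      intro P hP
      by_cases ho : Opt P
      · rw [Finset.sum_eq_zero fun t _ => surv_opt t P ho]
        exact zero_le
      rcases hd P hP ho with h1 | h1
      · exact (ENNReal.sum_le_tsum _).trans h1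
      · rw [Finset.sum_range_succ']
        have e0 : surv 0 P = 1 := by unfold surv; exact if_neg ho
        have e1 : ∀ t, surv (t + 1) P = ev (step P) (surv t) := by
          intro t
          rw [surv, if_neg ho]
          rfl
        rw [e0, Finset.sum_congr rfl fun t _ => e1 t, ← ev_sum]
        have e2 : (fun Q : Finset (GP n) => ∑ t ∈ Finset.range m, surv t Q) =
            fun Q : Finset (GP n) => ENNReal.ofReal (∑ t ∈ Finset.range m, surv t Q).toReal := by
          funext Q
          rw [ENNReal.ofReal_toReal]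
          refine (lt_of_le_of_lt (Finset.sum_le_sum fun t _ => surv_le_one t Q) ?_).ne
          simp
        rw [e2, ev_step P (hne P hP) _ (fun Q => ENNReal.toReal_nonneg)]
        have e3 : stepE P (fun Q => (∑ t ∈ Finset.range m, surv t Q).toReal) ≤ stepE P Ψ := by
          apply stepE_mono
          intro X hX Z hZ
          exact ENNReal.toReal_le_of_le_ofReal (h0 _) (ih _ (hcl P hP X hX Z hZ))
        calc _ ≤ ENNReal.ofReal (stepE P Ψ) + 1 := by
              gcongr
          _ = ENNReal.ofReal (stepE P Ψ + 1) := by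
              rw [ENNReal.ofReal_add (stepE_nonneg P Ψ h0) zero_le_one, ENNReal.ofReal_one]
          _ ≤ _ := ENNReal.ofReal_le_ofReal h1
  intro P hP
  unfold ET
  rw [ENNReal.tsum_eq_iSup_nat]
  exact iSup_le fun m => key m P hP

/-! ### Sizes of the outcomes -/

theorem out_sz {X Z : GP n} (h : Out X Z) : sz Z ≤ sz X + 1 ∧ sz X ≤ sz Z + 1 := by
  cases X with
  | none =>
    obtain ⟨c, rfl⟩ := h
    exact ⟨le_rfl, Nat.zero_le _⟩
  | some t =>
    have e : sz (some t) = t.leaves.length := rfl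
    rcases h with ⟨c, z, hz, rfl⟩ | h | ⟨c, z, hz, rfl⟩
    · have := ins_len c t z hz
      have e' : sz (some z) = z.leaves.length := rfl
      omega
    · have := del_len t Z h
      omega
    · have := sub_len c t z hz
      have e' : sz (some z) = z.leaves.length := rfl
      omega

/-- The region. -/
def Reg (B : ℕ) (P : Finset (GP n)) : Prop := Inv P ∧ mx P ≤ B + mf P

theorem reg_upd (B : ℕ) (P : Finset (GP n)) (h : Reg B P) (X : GP n) (hX : X ∈ P) (Z : GP n)
    (hZ : Out X Z) : Reg B (upd P Z) := by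
  refine ⟨inv_upd h.1 Z, ?_⟩
  have h1 := out_sz hZ
  have h2 := le_mx hX
  have h3 := mf_upd h.1 Z
  have h4 := h.2
  by_cases h5 : sz Z ≤ mx P
  · have := mx_upd (P := P) Z (mx P) le_rfl h5
    omega
  · rcases upd_big h.1 Z (by omega) with h6 | h6
    · rw [h6]; exact h.2
    · omega

theorem reg_mx {B : ℕ} {P : Finset (GP n)} (h : Reg B P) : mx P ≤ B + n := by
  have := mf_le P
  have := h.2
  omega

end Pool.V113.Smo
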