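import Pool.Agent.V113.Smo.Stmt

open scoped ENNReal

namespace Pool.V113.Smo

set_option linter.unusedSectionVars false

/-- Expectation of a nonnegative function. -/
noncomputable def ev {α : Type} (p : PMF α) (h : α → ℝ≥0∞) : ℝ≥0∞ := ∑' a, p a * h a

theorem ev_pure {α : Type} (a : α) (h : α → ℝ≥0∞) : ev (PMF.pure a) h = h a := by
  classical
  unfold ev
  rw [tsum_eq_single a]
  · simp
  · intro b hb
    rw [PMF.pure_apply, if_neg hb, zero_mul]

theorem ev_bind {α β : Type} (p : PMF α) (f : α → PMF β) (h : β → ℝ≥0∞) :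
    ev (p.bind f) h = ev p (fun a => ev (f a) h) := by
  unfold ev
  simp only [PMF.bind_apply]
  simp_rw [← ENNReal.tsum_mul_left, ← ENNReal.tsum_mul_right]
  rw [ENNReal.tsum_comm]
  refine tsum_congr fun a => tsum_congr fun b => ?_
  rw [mul_assoc]

theorem ev_map {α β : Type} (p : PMF α) (f : α → β) (h : β → ℝ≥0∞) :
    ev (p.map f) h = ev p (fun a => h (f a)) := by
  rw [PMF.map, ev_bind]
  congr 1
  funext a
  exact ev_pure _ _

theorem ev_finset {α : Type} (s : Finset α) (hs : s.Nonempty) (h : α → ℝ) (h0 : ∀ a, 0 ≤ h a) :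
    ev (PMF.uniformOfFinset s hs) (fun a => ENNReal.ofReal (h a)) =
      ENNReal.ofReal ((∑ a ∈ s, h a) / s.card) := by
  classical
  have hc : (0 : ℝ) < s.card := by exact_mod_cast hs.card_pos
  unfold ev
  rw [tsum_eq_sum (s := s)]
  · have h1 : ∀ a ∈ s, (PMF.uniformOfFinset s hs) a * ENNReal.ofReal (h a) =
        ENNReal.ofReal ((s.card : ℝ)⁻¹ * h a) := by
      intro a ha
      rw [PMF.uniformOfFinset_apply_of_mem hs ha, ENNReal.ofReal_mul (by positivity),
        ENNReal.ofReal_inv_of_pos hc, ENNReal.ofReal_natCast]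
    rw [Finset.sum_congr rfl h1, ← ENNReal.ofReal_sum_of_nonneg]
    · congr 1
      rw [← Finset.mul_sum, div_eq_inv_mul]
    · intro a _
      exact mul_nonneg (by positivity) (h0 a)
  · intro b hb
    rw [PMF.uniformOfFinset_apply_of_notMem hs hb, zero_mul]

/-- average over a finite type -/
noncomputable def avgF {α : Type} [Fintype α] (h : α → ℝ) : ℝ := (∑ a, h a) / Fintype.card α

/-- average over a list -/
noncomputable def avgL {α : Type} (l : List α) (h : α → ℝ) : ℝ := (l.map h).sum / l.length

theorem ev_fintype {α : Type} [Fintype α] [Nonempty α] (h : α → ℝ) (h0 : ∀ a, 0 ≤ h a) :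
    ev (PMF.uniformOfFintype α) (fun a => ENNReal.ofReal (h a)) = ENNReal.ofReal (avgF h) := by
  unfold PMF.uniformOfFintype
  rw [ev_finset _ _ h h0]
  rfl

theorem ev_unif {α : Type} (l : List α) (hl : l ≠ []) (h : α → ℝ) (h0 : ∀ a, 0 ≤ h a) :
    ev (unif l hl) (fun a => ENNReal.ofReal (h a)) = ENNReal.ofReal (avgL l h) := by
  have : Nonempty (Fin l.length) := ⟨⟨0, List.length_pos_iff.2 hl⟩⟩
  unfold unif
  rw [ev_map, ev_fintype (fun i => h (l.get i)) (fun i => h0 _)]
  congr 1
  unfold avgF avgL
  rw [Fintype.card_fin]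
  congr 1
  rw [← List.sum_ofFn]
  congr 1
  apply List.ext_getElem
  · simp
  · intro i h1 h2
    simp

section avg

theorem avgF_nonneg {α : Type} [Fintype α] (h : α → ℝ) (h0 : ∀ a, 0 ≤ h a) : 0 ≤ avgF h :=
  div_nonneg (Finset.sum_nonneg fun a _ => h0 a) (Nat.cast_nonneg _)

theorem avgL_nonneg {α : Type} (l : List α) (h : α → ℝ) (h0 : ∀ a, 0 ≤ h a) : 0 ≤ avgL l h := by
  refine div_nonneg (List.sum_nonneg ?_) (Nat.cast_nonneg _)
  intro x hx
  obtain ⟨a, -, rfl⟩ := List.mem_map.1 hx
  exact h0 a

theorem avgF_le {α : Type} [Fintype α] [Nonempty α] (h : α → ℝ) (c : ℝ) (hc : ∀ a, h a ≤ c) :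
    avgF h ≤ c := by
  unfold avgF
  have h1 : (0 : ℝ) < Fintype.card α := by exact_mod_cast Fintype.card_pos
  rw [div_le_iff₀ h1]
  calc (∑ a, h a) ≤ ∑ _a : α, c := Finset.sum_le_sum fun a _ => hc a
    _ = c * Fintype.card α := by
      rw [Finset.sum_const, Finset.card_univ, nsmul_eq_mul, mul_comm]

theorem avgL_le {α : Type} (l : List α) (hl : l ≠ []) (h : α → ℝ) (c : ℝ)
    (hc : ∀ a ∈ l, h a ≤ c) : avgL l h ≤ c := by
  unfold avgL
  have h1 : (0 : ℝ) < l.length := by exact_mod_cast List.length_pos_iff.2 hl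
  rw [div_le_iff₀ h1]
  have : ∀ l : List α, (∀ a ∈ l, h a ≤ c) → (l.map h).sum ≤ c * l.length := by
    intro l
    induction l with
    | nil => intro _; simp
    | cons a l ih =>
      intro hl
      rw [List.map_cons, List.sum_cons, List.length_cons]
      push_cast
      have h2 := hl a (List.mem_cons_self)
      have h3 := ih (fun b hb => hl b (List.mem_cons_of_mem _ hb))
      linarith
  exact this l hc

/-- An average with few exceptional entries. -/
theorem avgL_le_two {α : Type} (l : List α) (hl : l ≠ []) (h : α → ℝ) (c d : ℝ) (B : ℕ)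
    (bad : α → Prop) [DecidablePred bad] (hcd : c ≤ d)
    (hB : (l.filter (fun a => decide (bad a))).length ≤ B)
    (hgood : ∀ a ∈ l, ¬ bad a → h a ≤ c) (hbad : ∀ a ∈ l, bad a → h a ≤ d) :
    avgL l h ≤ c + (d - c) * B / l.length := by
  have h1 : (0 : ℝ) < l.length := by exact_mod_cast List.length_pos_iff.2 hl
  have key : ∀ l : List α, (∀ a ∈ l, ¬ bad a → h a ≤ c) → (∀ a ∈ l, bad a → h a ≤ d) →
      (l.map h).sum ≤ c * l.length + (d - c) * (l.filter (fun a => decide (bad a))).length := by
    intro l
    induction l with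
    | nil => intro _ _; simp
    | cons a l ih =>
      intro hg hb
      have h3 := ih (fun b hb => hg b (List.mem_cons_of_mem _ hb))
        (fun b hb' => hb b (List.mem_cons_of_mem _ hb'))
      rw [List.map_cons, List.sum_cons, List.length_cons, List.filter_cons]
      by_cases hba : bad a
      · have h2 := hb a (List.mem_cons_self) hba
        rw [if_pos (by simpa using hba), List.length_cons]
        push_cast
        linarith
      · have h2 := hg a (List.mem_cons_self) hba
        rw [if_neg (by simpa using hba)]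
        push_cast
        linarith
  have h2 := key l hgood hbad
  have h3 : (d - c) * ((l.filter (fun a => decide (bad a))).length : ℝ) ≤ (d - c) * B :=
    mul_le_mul_of_nonneg_left (by exact_mod_cast hB) (by linarith)
  unfold avgL
  rw [div_le_iff₀ h1, add_mul, div_mul_cancel₀ _ h1.ne']
  linarith

/-- An average of a function bounded by `c` that is at most `d` at one entry. -/
theorem avgL_le_one {α : Type} (l : List α) (h : α → ℝ) (c d : ℝ) (a : α) (ha : a ∈ l)
    (hc : ∀ a ∈ l, h a ≤ c) (hd : h a ≤ d) : avgL l h ≤ c - (c - d) / l.length := by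
  have h1 : (0 : ℝ) < l.length := by exact_mod_cast List.length_pos_of_mem ha
  have key : ∀ l : List α, (∀ a ∈ l, h a ≤ c) → (l.map h).sum ≤ c * l.length := by
    intro l
    induction l with
    | nil => intro _; simp
    | cons b l ih =>
      intro hl
      rw [List.map_cons, List.sum_cons, List.length_cons]
      push_cast
      have h2 := hl b (List.mem_cons_self)
      have h3 := ih (fun b hb => hl b (List.mem_cons_of_mem _ hb))
      linarith
  have key2 : ∀ l : List α, a ∈ l → (∀ a ∈ l, h a ≤ c) →
      (l.map h).sum ≤ c * l.length - (c - d) := by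
    intro l
    induction l with
    | nil => intro h; simp at h
    | cons b l ih =>
      intro hal hl
      rw [List.map_cons, List.sum_cons, List.length_cons]
      push_cast
      rcases List.mem_cons.1 hal with rfl | h'
      · have h3 := key l (fun b hb => hl b (List.mem_cons_of_mem _ hb))
        linarith
      · have h2 := hl b (List.mem_cons_self)
        have h3 := ih h' (fun b hb => hl b (List.mem_cons_of_mem _ hb))
        linarith
  have h2 := key2 l ha hc
  unfold avgL
  rw [div_le_iff₀ h1, sub_mul, div_mul_cancel₀ _ h1.ne']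
  exact h2

theorem avgF_le_one {α : Type} [Fintype α] [DecidableEq α] (h : α → ℝ) (c d : ℝ) (a : α)
    (hc : ∀ a, h a ≤ c) (hd : h a ≤ d) : avgF h ≤ c - (c - d) / Fintype.card α := by
  have : Nonempty α := ⟨a⟩
  have h1 : (0 : ℝ) < Fintype.card α := by exact_mod_cast Fintype.card_pos
  unfold avgF
  rw [div_le_iff₀ h1, sub_mul, div_mul_cancel₀ _ h1.ne']
  rw [← Finset.add_sum_erase _ _ (Finset.mem_univ a)]
  have h2 : ∑ b ∈ Finset.univ.erase a, h b ≤ ∑ _b ∈ Finset.univ.erase a, c :=
    Finset.sum_le_sum fun b _ => hc b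
  rw [Finset.sum_const, Finset.card_erase_of_mem (Finset.mem_univ a), nsmul_eq_mul,
    Nat.cast_sub (Finset.card_pos.2 ⟨a, Finset.mem_univ a⟩), Finset.card_univ] at h2
  push_cast at h2
  linarith

end avg

theorem avgF3 (x y z : ℝ) :
    avgF (fun op : Fin 3 => if op = 0 then x else if op = 1 then y else z) = (x + y + z) / 3 := by
  unfold avgF
  rw [Fin.sum_univ_three, Fintype.card_fin, if_pos rfl, if_neg (by decide), if_pos rfl,
    if_neg (by decide), if_neg (by decide)]
  norm_num

section E

variable {n : ℕ} [NeZero n]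

/-- Expectation of a real function of the offspring. -/
noncomputable def hvlE : GP n → (GP n → ℝ) → ℝ
  | none, h => avgF (fun c : Lit n => h (some (Tr.leaf c)))
  | some t, h => (avgF (fun c : Lit n => avgL (t.ins c) (fun z => h (some z))) + avgL t.del h +
      avgF (fun c : Lit n => avgL (t.sub c) (fun z => h (some z)))) / 3

theorem hvlE_nonneg (X : GP n) (h : GP n → ℝ) (h0 : ∀ Z, 0 ≤ h Z) : 0 ≤ hvlE X h := by
  cases X with
  | none => exact avgF_nonneg _ fun c => h0 _
  | some t =>
    have h1 : 0 ≤ avgF (fun c : Lit n => avgL (t.ins c) (fun z => h (some z))) :=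
      avgF_nonneg _ fun c => avgL_nonneg _ _ fun z => h0 _
    have h2 : 0 ≤ avgL t.del h := avgL_nonneg _ _ fun z => h0 _
    have h3 : 0 ≤ avgF (fun c : Lit n => avgL (t.sub c) (fun z => h (some z))) :=
      avgF_nonneg _ fun c => avgL_nonneg _ _ fun z => h0 _
    unfold hvlE
    positivity

theorem ev_hvl (X : GP n) (h : GP n → ℝ) (h0 : ∀ Z, 0 ≤ h Z) :
    ev (hvl X) (fun Z => ENNReal.ofReal (h Z)) = ENNReal.ofReal (hvlE X h) := by
  cases X with
  | none =>
    unfold hvl hvlE
    rw [ev_map, ev_fintype (fun c : Lit n => h (some (Tr.leaf c))) (fun c => h0 _)]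
  | some t =>
    unfold hvl hvlE
    rw [ev_bind]
    let a0 := avgF (fun c : Lit n => avgL (t.ins c) (fun z => h (some z)))
    let a1 := avgL t.del h
    let a2 := avgF (fun c : Lit n => avgL (t.sub c) (fun z => h (some z)))
    have h1 : 0 ≤ a0 := avgF_nonneg _ fun c => avgL_nonneg _ _ fun z => h0 _
    have h2 : 0 ≤ a1 := avgL_nonneg _ _ fun z => h0 _
    have h3 : 0 ≤ a2 := avgF_nonneg _ fun c => avgL_nonneg _ _ fun z => h0 _
    have key : ∀ op : Fin 3, ev (if op = 0 then
        (PMF.uniformOfFintype (Lit n)).bind (fun c => (unif (t.ins c) (t.ins_ne_nil c)).map some)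
      else if op = 1 then unif t.del t.del_ne_nil
      else
        (PMF.uniformOfFintype (Lit n)).bind (fun c => (unif (t.sub c) (t.sub_ne_nil c)).map some))
        (fun Z => ENNReal.ofReal (h Z)) =
        ENNReal.ofReal (if op = 0 then a0 else if op = 1 then a1 else a2) := by
      intro op
      by_cases h4 : op = 0
      · rw [if_pos h4, if_pos h4, ev_bind]
        rw [← ev_fintype _ (fun c => avgL_nonneg _ _ fun z => h0 _)]
        congr 1
        funext c
        rw [ev_map, ev_unif _ _ (fun z => h (some z)) (fun z => h0 _)]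
      · rw [if_neg h4, if_neg h4]
        by_cases h5 : op = 1
        · rw [if_pos h5, if_pos h5]
          exact ev_unif _ _ h h0
        · rw [if_neg h5, if_neg h5, ev_bind]
          rw [← ev_fintype _ (fun c => avgL_nonneg _ _ fun z => h0 _)]
          congr 1
          funext c
          rw [ev_map, ev_unif _ _ (fun z => h (some z)) (fun z => h0 _)]
    simp only [key]
    rw [ev_fintype]
    · rw [avgF3]
    · intro op
      split_ifs <;> assumption

/-- Expectation after one iteration. -/
noncomputable def stepE (P : Finset (GP n)) (h : Finset (GP n) → ℝ) : ℝ :=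
  (∑ X ∈ P, hvlE X (fun Z => h (upd P Z))) / P.card

theorem ev_step (P : Finset (GP n)) (hP : P.Nonempty) (h : Finset (GP n) → ℝ)
    (h0 : ∀ Z, 0 ≤ h Z) :
    ev (step P) (fun Q => ENNReal.ofReal (h Q)) = ENNReal.ofReal (stepE P h) := by
  unfold step stepE
  rw [dif_pos hP, ev_bind]
  rw [← ev_finset P hP _ (fun X => hvlE_nonneg X _ (fun Z => h0 _))]
  congr 1
  funext X
  rw [ev_map]
  exact ev_hvl X (fun Z => h (upd P Z)) (fun Z => h0 _)

end E

end Pool.V113.Smo
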