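import Pool.Agent.V113.Smo.Ph1

open scoped ENNReal
open Filter Topology

namespace Pool.V113.Smo

set_option linter.unusedSectionVars false

variable {n : ℕ} [NeZero n]

theorem GG_real (n : ℕ) : (GG n : ℝ) = 12 * n * (n + 1) := by unfold GG; push_cast; ring

/-- The arithmetic for `g ≥ 1`. -/
theorem arith_pos (n k l : ℕ) (hn : 1 ≤ n) (hkl : k ≤ l) (hS : GG n * GG n ≤ l + 1) :
    3 * ((n : ℝ) + 1) ≤
      (8 + 12 * (n + 1) * (wf (GG n) (k + 1) (l + 1) - wf (GG n) k l)) * (1 - n / (l + 1 : ℕ)) -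
      12 * (n + 1) * (wf (GG n) (k + 2) (l + 1) - wf (GG n) (k + 1) (l + 1)) := by
  have hn' : (1 : ℝ) ≤ n := by exact_mod_cast hn
  have hG : (GG n : ℝ) = 12 * n * (n + 1) := GG_real n
  have hGpos : (1 : ℝ) ≤ GG n := by rw [hG]; nlinarith
  have hG1 : 1 ≤ GG n := by exact_mod_cast hGpos
  have d2 := wf_diff2 (GG n) k l hG1
  have d1 := wf_diff1 (GG n) k l hkl
  have hmono : wf (GG n) k l ≤ wf (GG n) (k + 1) (l + 1) := wf_mono (Nat.le_succ _) (Nat.le_succ _)
  set a := wf (GG n) (k + 1) (l + 1) - wf (GG n) k l with ha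
  set b := wf (GG n) (k + 2) (l + 1) - wf (GG n) (k + 1) (l + 1) with hb
  have hab : 1 / 2 ≤ a - b := by rw [ha, hb]; linarith
  have ha0 : 0 ≤ a := by rw [ha]; linarith
  set S : ℝ := ((l + 1 : ℕ) : ℝ) with hSdef
  have hS' : (GG n : ℝ) * GG n ≤ S := by rw [hSdef]; exact_mod_cast hS
  have hSpos : 0 < S := by nlinarith
  -- n / S * a ≤ 1/4
  have h1 : n / S * a ≤ 1 / 12 := by
    have e1 : n / S * a ≤ n / S * (S / GG n + GG n / 2) :=
      mul_le_mul_of_nonneg_left d1 (by positivity)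
    have e2 : (n : ℝ) / S * (S / GG n + GG n / 2) = n / GG n + n * GG n / (2 * S) := by
      field_simp
    have e3 : (n : ℝ) / GG n ≤ 1 / 24 := by
      rw [div_le_iff₀ (by linarith), hG]
      nlinarith
    have e4 : (n : ℝ) * GG n / (2 * S) ≤ 1 / 24 := by
      rw [div_le_iff₀ (by linarith)]
      have e5 : (24 : ℝ) * n ≤ GG n := by rw [hG]; nlinarith
      nlinarith
    linarith
  have h2 : n / S ≤ 1 := by
    rw [div_le_iff₀ hSpos]
    have e5 : (24 : ℝ) * n ≤ GG n := by rw [hG]; nlinarith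
    nlinarith
  have h3 : (8 + 12 * ((n : ℝ) + 1) * a) * (1 - n / S) - 12 * (n + 1) * b =
      8 * (1 - n / S) + 12 * (n + 1) * ((a - b) - n / S * a) := by ring
  rw [h3]
  have h4 : (12 * ((n : ℝ) + 1)) * (1 / 4) ≤ 12 * (n + 1) * ((a - b) - n / S * a) :=
    mul_le_mul_of_nonneg_left (by linarith) (by positivity)
  linarith

/-- The arithmetic for `g = 0`. -/
theorem arith_zero (n : ℕ) (S : ℝ) (hn : 1 ≤ n) (hS : (GG n : ℝ) * GG n ≤ S) :
    3 ≤ 8 - (8 + 12 * ((n : ℝ) + 1) * (S / (2 * GG n) + GG n / 2)) * n / S := by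
  have hn' : (1 : ℝ) ≤ n := by exact_mod_cast hn
  have hG : (GG n : ℝ) = 12 * n * (n + 1) := GG_real n
  have hGpos : (24 : ℝ) ≤ GG n := by rw [hG]; nlinarith
  have hGn : (24 : ℝ) * n ≤ GG n := by rw [hG]; nlinarith
  have hSpos : 0 < S := by nlinarith
  have h1 : (8 + 12 * ((n : ℝ) + 1) * (S / (2 * GG n) + GG n / 2)) * n ≤ 5 * S := by
    have e1 : 12 * ((n : ℝ) + 1) * (S / (2 * GG n) + GG n / 2) * n =
        GG n * (S / (2 * GG n) + GG n / 2) := by rw [hG]; ring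
    have e2 : (GG n : ℝ) * (S / (2 * GG n) + GG n / 2) = S / 2 + GG n * GG n / 2 := by
      field_simp
    have e3 : 8 * (n : ℝ) ≤ GG n * GG n := by nlinarith
    nlinarith
  have h2 : (8 + 12 * ((n : ℝ) + 1) * (S / (2 * GG n) + GG n / 2)) * n / S ≤ 5 := by
    rw [div_le_iff₀ hSpos]; exact h1
  linarith

theorem ps1_drift (B : ℕ) (g0 : ℝ) (P : Finset (GP n)) (hP : Reg B P)
    (hS : GG n * GG n ≤ mx P) :
    stepE P (Ps1 (B + n + 1) g0) + 1 ≤ Ps1 (B + n + 1) g0 P := by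
  classical
  have hn : 1 ≤ n := Nat.one_le_iff_ne_zero.2 (NeZero.ne n)
  have hn' : (1 : ℝ) ≤ n := by exact_mod_cast hn
  have hG1 : 1 ≤ GG n := by
    unfold GG
    nlinarith
  have hpos : 1 ≤ mx P := le_trans (Nat.mul_le_mul hG1 hG1) hS
  have hL : mx P + 1 ≤ B + n + 1 := by
    have := reg_mx hP
    omega
  obtain ⟨T, hT, hTf, hTs⟩ := exists_top hP.1
  obtain ⟨X0, hX0, hs0⟩ := exists_mn hP.1.1
  have hle := mn_le_mx hP.1.1
  by_cases hk : mx P = mn P
  · have hsing : ∀ Y ∈ P, Y = T := by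
      intro Y hY
      apply eq_of_sz hP.1 hY hT
      have h1 := le_mx hY
      have h2 := mn_le hY
      omega
    have hcard : (P.card : ℝ) ≤ 1 := by
      have : P.card ≤ 1 := Finset.card_le_one.2 fun a ha b hb => (hsing a ha).trans (hsing b hb).symm
      exact_mod_cast this
    have h1 := top_zero (B + n + 1) g0 hP.1 hL T hT hTf hTs hk hpos
    have h2 := arith_zero n (mx P : ℝ) hn (by exact_mod_cast hS)
    have h3 : hvlE T (fun Z => Ps1 (B + n + 1) g0 (upd P Z)) ≤ Ps1 (B + n + 1) g0 P - 1 := by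
      linarith
    refine stepE_le_one P _ _ 1 T hT ?_ h3 hcard
    intro Y hY
    rw [hsing Y hY]
    linarith
  · obtain ⟨k, hk'⟩ : ∃ k, mx P - mn P = k + 1 := ⟨mx P - mn P - 1, by omega⟩
    obtain ⟨l, hl⟩ : ∃ l, mx P = l + 1 := ⟨mx P - 1, by omega⟩
    have hkl : k ≤ l := by omega
    have hne : T ≠ X0 := by
      rintro rfl
      omega
    have h1 := top_pos (B + n + 1) g0 hP.1 hL T hT hTf hTs k l hk' hl
    have h2 := arith_pos n k l hn hkl (by omega)
    have hcost : cost P = 12 * (n + 1) *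
        (wf (GG n) (k + 2) (l + 1) - wf (GG n) (k + 1) (l + 1)) := by
      unfold cost
      rw [hk', hl]
    set gain : ℝ := (8 + 12 * (n + 1) * (wf (GG n) (k + 1) (l + 1) - wf (GG n) k l)) *
        (1 - n / (l + 1 : ℕ)) with hgain
    set c : ℝ := Ps1 (B + n + 1) g0 P with hc
    have hsum : ∑ X ∈ P, hvlE X (fun Z => Ps1 (B + n + 1) g0 (upd P Z)) ≤
        ∑ X ∈ P, (c + (if X = X0 then cost P / 3 else 0) - (if X = T then gain / 3 else 0)) := by
      apply Finset.sum_le_sum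
      intro X hX
      by_cases hXT : X = T
      · rw [if_pos hXT, if_neg (by rw [hXT]; exact hne), hXT]
        linarith
      · rw [if_neg hXT, sub_zero]
        have h5 := generic (B + n + 1) g0 hP.1 hL hpos X hX
        by_cases hX0' : X = X0
        · rw [if_pos hX0']
          rw [if_pos (by rw [hX0']; exact hs0)] at h5
          exact h5
        · rw [if_neg hX0']
          rw [if_neg (fun e => hX0' (eq_of_sz hP.1 hX hX0 (by omega)))] at h5
          exact h5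
    rw [Finset.sum_sub_distrib, Finset.sum_add_distrib, Finset.sum_const, Finset.sum_ite_eq',
      Finset.sum_ite_eq', if_pos hX0, if_pos hT, nsmul_eq_mul] at hsum
    have hcardpos : (0 : ℝ) < P.card := by exact_mod_cast Finset.card_pos.2 hP.1.1
    have hcard : (P.card : ℝ) ≤ n + 1 := by exact_mod_cast card_le hP.1
    have h6 : stepE P (Ps1 (B + n + 1) g0) ≤ c - 1 := by
      unfold stepE
      rw [div_le_iff₀ hcardpos]
      rw [hcost] at hsum
      nlinarith
    linarith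

/-- The constant of the second phase. -/
noncomputable def g2 (n : ℕ) : ℝ :=
  ((GG n * GG n : ℕ) + 2 * n + 1) * (24 * n * (n + 1) * ((GG n * GG n : ℕ) + n + 1))

theorem ET_le (B : ℕ) (P : Finset (GP n)) (hP : Reg B P) :
    ET P ≤ ENNReal.ofReal (Ps1 (B + n + 1) (g2 n) P) := by
  refine drift (Reg B) (fun P h => h.1.1) (fun P h X hX Z hZ => reg_upd B P h X hX Z hZ)
    (Ps1 (B + n + 1) (g2 n)) (fun P => ?_) (fun Q hQ ho => ?_) P hP
  · refine le_trans ?_ (ps1_ge _ _ P)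
    unfold g2; positivity
  · by_cases hS : GG n * GG n ≤ mx Q
    · exact Or.inr (ps1_drift B (g2 n) Q hQ hS)
    · left
      have h1 : Reg (GG n * GG n) Q := ⟨hQ.1, by omega⟩
      refine (phase2 (GG n * GG n) Q h1).trans (ENNReal.ofReal_le_ofReal ?_)
      exact ps1_ge _ _ Q

theorem init_le (t : Tr n) : ET {(some t : GP n)} ≤
    ENNReal.ofReal (9 * t.leaves.length + 2 * 10 ^ 7 * n ^ 10) := by
  classical
  have hn : (1 : ℝ) ≤ n := by exact_mod_cast Nat.one_le_iff_ne_zero.2 (NeZero.ne n)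
  have hInv : Inv ({(some t : GP n)} : Finset (GP n)) := by
    refine ⟨Finset.singleton_nonempty _, ?_⟩
    intro X hX Y hY _
    rw [Finset.mem_singleton] at hX hY
    rw [hX, hY]
  have hmx : mx ({(some t : GP n)} : Finset (GP n)) = t.leaves.length := by
    unfold mx; rw [Finset.sup_singleton]; rfl
  have hmn : mn ({(some t : GP n)} : Finset (GP n)) = t.leaves.length := by
    obtain ⟨X, hX, e⟩ := exists_mn hInv.1
    rw [Finset.mem_singleton] at hX
    rw [← e, hX]; rfl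
  have hreg : Reg t.leaves.length ({(some t : GP n)} : Finset (GP n)) :=
    ⟨hInv, by rw [hmx]; omega⟩
  refine (ET_le _ _ hreg).trans (ENNReal.ofReal_le_ofReal ?_)
  unfold Ps1
  rw [hmx, hmn, Nat.sub_self, wf_zero]
  set T : ℝ := (t.leaves.length : ℝ) with hT
  have hK : ((n : ℝ) - mf ({(some t : GP n)} : Finset (GP n))) *
      KK n (t.leaves.length + n + 1) ≤ n * KK n (t.leaves.length + n + 1) :=
    mul_le_mul_of_nonneg_right (by
      have : (0 : ℝ) ≤ mf ({(some t : GP n)} : Finset (GP n)) := by positivity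
      linarith) (KK_nonneg _ _)
  have hG : (GG n : ℝ) = 12 * n * (n + 1) := GG_real n
  have hGpos : (0 : ℝ) < GG n := by rw [hG]; positivity
  have hnK : (n : ℝ) * KK n (t.leaves.length + n + 1) =
      8 * n + (T + n + 1) + GG n * GG n / 2 := by
    unfold KK
    have e : (n : ℝ) * (8 + 12 * (n + 1) *
        (((t.leaves.length + n + 1 : ℕ) : ℝ) / GG n + GG n / 2)) =
        8 * n + (12 * n * (n + 1)) * (((t.leaves.length + n + 1 : ℕ) : ℝ) / GG n + GG n / 2) := by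
      ring
    rw [e, ← hG, hT]
    push_cast
    field_simp
    ring
  have hG2 : (GG n : ℝ) * GG n ≤ 576 * n ^ 4 := by
    rw [hG]
    have e1 : 12 * (n : ℝ) * (n + 1) ≤ 24 * n ^ 2 := by nlinarith
    have e2 : (0 : ℝ) ≤ 12 * (n : ℝ) * (n + 1) := by positivity
    calc 12 * (n : ℝ) * (n + 1) * (12 * n * (n + 1)) ≤ (24 * n ^ 2) * (24 * n ^ 2) :=
          mul_le_mul e1 e1 e2 (by positivity)
      _ = 576 * n ^ 4 := by ring
  have p4 : (n : ℝ) ≤ n ^ 4 := le_self_pow₀ hn (by norm_num)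
  have p41 : (1 : ℝ) ≤ n ^ 4 := one_le_pow₀ hn
  have hg2 : g2 n ≤ 16100000 * n ^ 10 := by
    unfold g2
    push_cast
    have f1 : (GG n : ℝ) * GG n + 2 * n + 1 ≤ 579 * n ^ 4 := by linarith
    have f2 : 24 * (n : ℝ) * (n + 1) ≤ 48 * n ^ 2 := by nlinarith
    have f3 : (GG n : ℝ) * GG n + n + 1 ≤ 578 * n ^ 4 := by linarith
    have f4 : 24 * (n : ℝ) * (n + 1) * (GG n * GG n + n + 1) ≤ (48 * n ^ 2) * (578 * n ^ 4) :=
      mul_le_mul f2 f3 (by positivity) (by positivity)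
    calc ((GG n : ℝ) * GG n + 2 * n + 1) * (24 * n * (n + 1) * (GG n * GG n + n + 1)) ≤
        (579 * n ^ 4) * ((48 * n ^ 2) * (578 * n ^ 4)) :=
          mul_le_mul f1 f4 (by positivity) (by positivity)
      _ = 16063776 * n ^ 10 := by ring
      _ ≤ 16100000 * n ^ 10 := by
        have : (0 : ℝ) ≤ n ^ 10 := by positivity
        nlinarith
  have p10 : (n : ℝ) ^ 4 ≤ n ^ 10 := pow_le_pow_right₀ hn (by norm_num)
  have p0 : (0 : ℝ) ≤ (n : ℝ) ^ 10 := by positivity
  nlinarith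

theorem worst_le (n : ℕ) [NeZero n] (T : ℕ) :
    worst n T ≤ ENNReal.ofReal (9 * T + 2 * 10 ^ 7 * n ^ 10) := by
  unfold worst
  refine iSup_le fun t => iSup_le fun ht => ?_
  rw [← ht]
  exact init_le t

theorem ratio_tendsto : Tendsto (fun n : ℕ => worst (n + 1) ((n + 1) ^ 10) /
    ENNReal.ofReal (((n + 1 : ℕ) : ℝ) * ((n + 1) ^ 10 : ℕ) +
      ((n + 1 : ℕ) : ℝ) ^ 2 * Real.log ((n + 1 : ℕ) : ℝ))) atTop (𝓝 0) := by
  have hlim : Tendsto (fun n : ℕ => ENNReal.ofReal (3 * 10 ^ 7 * (1 / ((n : ℝ) + 1)))) atTop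
      (𝓝 0) := by
    have h1 : Tendsto (fun n : ℕ => (3 * 10 ^ 7 : ℝ) * (1 / ((n : ℝ) + 1))) atTop
        (𝓝 ((3 * 10 ^ 7 : ℝ) * 0)) := tendsto_one_div_add_atTop_nhds_zero_nat.const_mul _
    rw [mul_zero] at h1
    have h2 := ENNReal.tendsto_ofReal h1
    rwa [ENNReal.ofReal_zero] at h2
  refine tendsto_of_tendsto_of_tendsto_of_le_of_le tendsto_const_nhds hlim (fun _ => zero_le)
    (fun n => ?_)
  set m : ℝ := ((n + 1 : ℕ) : ℝ) with hm
  have hm1 : (1 : ℝ) ≤ m := by rw [hm]; exact_mod_cast Nat.le_add_left 1 n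
  have hlog : 0 ≤ Real.log m := Real.log_nonneg hm1
  have hden : m ^ 11 ≤ m * ((n + 1) ^ 10 : ℕ) + m ^ 2 * Real.log m := by
    have e : m * (((n + 1) ^ 10 : ℕ) : ℝ) = m ^ 11 := by
      rw [hm]; push_cast; ring
    rw [e]
    have : 0 ≤ m ^ 2 * Real.log m := by positivity
    linarith
  have hnum : worst (n + 1) ((n + 1) ^ 10) ≤ ENNReal.ofReal (3 * 10 ^ 7 * m ^ 10) := by
    refine (worst_le (n + 1) ((n + 1) ^ 10)).trans (ENNReal.ofReal_le_ofReal ?_)
    have e : ((((n + 1) ^ 10 : ℕ)) : ℝ) = m ^ 10 := by rw [hm]; push_cast; ring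
    rw [e]
    have : (0 : ℝ) ≤ m ^ 10 := by positivity
    have e2 : (((n + 1 : ℕ) : ℝ)) ^ 10 = m ^ 10 := by rw [hm]
    rw [e2]
    nlinarith
  calc worst (n + 1) ((n + 1) ^ 10) / ENNReal.ofReal (m * ((n + 1) ^ 10 : ℕ) +
        m ^ 2 * Real.log m) ≤
      ENNReal.ofReal (3 * 10 ^ 7 * m ^ 10) / ENNReal.ofReal (m ^ 11) :=
        ENNReal.div_le_div hnum (ENNReal.ofReal_le_ofReal hden)
    _ = ENNReal.ofReal (3 * 10 ^ 7 * m ^ 10 / m ^ 11) := by
        rw [ENNReal.ofReal_div_of_pos (by positivity)]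
    _ ≤ ENNReal.ofReal (3 * 10 ^ 7 * (1 / ((n : ℝ) + 1))) := by
        apply ENNReal.ofReal_le_ofReal
        have e : (n : ℝ) + 1 = m := by rw [hm]; push_cast; ring
        rw [e]
        apply le_of_eq
        field_simp

end Pool.V113.Smo
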