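import Mathlib

namespace Pool.V113.Smo

/-- convex correction -/
noncomputable def qf (G g : ℕ) : ℝ := ∑ i ∈ Finset.range g, (min i G : ℕ) / 2

theorem qf_succ (G g : ℕ) : qf G (g + 1) = qf G g + (min g G : ℕ) / 2 := by
  unfold qf; rw [Finset.sum_range_succ]

theorem qf_le (G g : ℕ) : qf G g ≤ g * (G / 2) := by
  induction g with
  | zero => simp [qf]
  | succ g ih =>
    rw [qf_succ]
    have h : ((min g G : ℕ) : ℝ) ≤ G := by exact_mod_cast min_le_right _ _
    push_cast at h ⊢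
    linarith

/-- The gap function. -/
noncomputable def wf (G g s : ℕ) : ℝ := g * (s / (2 * G) + G / 2) - qf G g

theorem wf_zero (G s : ℕ) : wf G 0 s = 0 := by simp [wf, qf]

theorem wf_one (G s : ℕ) : wf G 1 s = s / (2 * G) + G / 2 := by simp [wf, qf]

theorem wf_nonneg (G g s : ℕ) : 0 ≤ wf G g s := by
  have h1 := qf_le G g
  have h2 : (0 : ℝ) ≤ g * (s / (2 * G)) := by positivity
  unfold wf
  linarith

theorem wf_mono_g (G g s : ℕ) : wf G g s ≤ wf G (g + 1) s := by
  unfold wf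
  rw [qf_succ]
  have h : ((min g G : ℕ) : ℝ) ≤ G := by exact_mod_cast min_le_right _ _
  have h2 : (0 : ℝ) ≤ s / (2 * G) := by positivity
  push_cast at h ⊢
  linarith

theorem wf_mono {G g g' s s' : ℕ} (hg : g ≤ g') (hs : s ≤ s') : wf G g s ≤ wf G g' s' := by
  have h1 : wf G g s ≤ wf G g' s := by
    induction hg with
    | refl => exact le_rfl
    | step _ ih => exact ih.trans (wf_mono_g G _ s)
  refine h1.trans ?_
  unfold wf
  have h2 : (s : ℝ) ≤ s' := by exact_mod_cast hs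
  have h3 : (s : ℝ) / (2 * G) ≤ s' / (2 * G) := div_le_div_of_nonneg_right h2 (by positivity)
  have h4 : (g' : ℝ) * (s / (2 * G) + G / 2) ≤ g' * (s' / (2 * G) + G / 2) :=
    mul_le_mul_of_nonneg_left (by linarith) (by positivity)
  linarith

theorem wf_diff2 (G k l : ℕ) (hG : 1 ≤ G) :
    wf G (k + 2) (l + 1) + wf G k l - 2 * wf G (k + 1) (l + 1) ≤ -(1 / 2) := by
  have hG' : (1 : ℝ) ≤ G := by exact_mod_cast hG
  have e : wf G (k + 2) (l + 1) + wf G k l - 2 * wf G (k + 1) (l + 1) =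
      -(k / (2 * G)) - (((min (k + 1) G : ℕ) : ℝ) - (min k G : ℕ)) / 2 := by
    unfold wf
    rw [qf_succ G (k + 1), qf_succ G k]
    push_cast
    field_simp
    ring
  rw [e]
  have h0 : (0 : ℝ) ≤ k / (2 * G) := by positivity
  by_cases h : k + 1 ≤ G
  · rw [min_eq_left h, min_eq_left (by omega)]
    push_cast
    linarith
  · rw [min_eq_right (by omega : G ≤ k + 1), min_eq_right (by omega : G ≤ k)]
    have h1 : (G : ℝ) ≤ k := by exact_mod_cast (by omega : G ≤ k)
    have h2 : (1 / 2 : ℝ) ≤ k / (2 * G) := by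
      rw [le_div_iff₀ (by linarith)]
      linarith
    linarith

theorem wf_diff1 (G k l : ℕ) (hkl : k ≤ l) :
    wf G (k + 1) (l + 1) - wf G k l ≤ (l + 1 : ℕ) / G + G / 2 := by
  have e : wf G (k + 1) (l + 1) - wf G k l =
      (l + 1) / (2 * G) + G / 2 + k * (1 / (2 * G)) - (min k G : ℕ) / 2 := by
    unfold wf
    rw [qf_succ G k]
    push_cast
    ring
  rw [e]
  have h0 : (0 : ℝ) ≤ ((min k G : ℕ) : ℝ) / 2 := by positivity
  have h1 : (k : ℝ) ≤ l := by exact_mod_cast hkl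
  have h2 : (k : ℝ) * (1 / (2 * G)) ≤ (l + 1) * (1 / (2 * G)) :=
    mul_le_mul_of_nonneg_right (by linarith) (by positivity)
  have h3 : ((l : ℝ) + 1) / (2 * G) + (l + 1) * (1 / (2 * G)) = (l + 1 : ℕ) / G := by
    push_cast
    ring
  linarith

end Pool.V113.Smo
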