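import Pool.Agent.V113.Smo.Ph2
import Pool.Agent.V113.Smo.Wf

open scoped ENNReal

namespace Pool.V113.Smo

set_option linter.unusedSectionVars false

variable {n : ℕ} [NeZero n]

/-- `G = 12 n (n + 1)` -/
def GG (n : ℕ) : ℕ := 12 * n * (n + 1)

/-- the weight of the fitness -/
noncomputable def KK (n : ℕ) (L : ℕ) : ℝ := 8 + 12 * (n + 1) * (L / GG n + GG n / 2)

/-- The potential of the first phase. -/
noncomputable def Ps1 (L : ℕ) (g0 : ℝ) (P : Finset (GP n)) : ℝ :=
  8 * mx P + 12 * (n + 1) * wf (GG n) (mx P - mn P) (mx P) + (n - mf P) * KK n L + g0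

theorem KK_nonneg (n L : ℕ) : 0 ≤ KK n L := by unfold KK; positivity

theorem mf_le' (P : Finset (GP n)) : (0 : ℝ) ≤ n - mf P := by
  have : (mf P : ℝ) ≤ n := by exact_mod_cast mf_le P
  linarith

theorem ps1_ge (L : ℕ) (g0 : ℝ) (P : Finset (GP n)) : g0 ≤ Ps1 L g0 P := by
  unfold Ps1
  have h1 := wf_nonneg (GG n) (mx P - mn P) (mx P)
  have h2 := mul_nonneg (mf_le' P) (KK_nonneg n L)
  have h3 : (0 : ℝ) ≤ 12 * (n + 1) * wf (GG n) (mx P - mn P) (mx P) := by positivity
  have h4 : (0 : ℝ) ≤ 8 * mx P := by positivity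
  linarith

/-- General upper bound. -/
theorem ps1_bound (L : ℕ) (g0 : ℝ) (Q : Finset (GP n)) (S g F : ℕ) (h1 : mx Q ≤ S)
    (h2 : mx Q - mn Q ≤ g) (h3 : F ≤ mf Q) :
    Ps1 L g0 Q ≤ 8 * S + 12 * (n + 1) * wf (GG n) g S + (n - F) * KK n L + g0 := by
  unfold Ps1
  have a1 : (mx Q : ℝ) ≤ S := by exact_mod_cast h1
  have a2 := wf_mono (G := GG n) h2 h1
  have a3 : (F : ℝ) ≤ mf Q := by exact_mod_cast h3
  have a4 : (12 * ((n : ℝ) + 1)) * wf (GG n) (mx Q - mn Q) (mx Q) ≤
      12 * (n + 1) * wf (GG n) g S := mul_le_mul_of_nonneg_left a2 (by positivity)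
  have a5 : ((n : ℝ) - mf Q) * KK n L ≤ (n - F) * KK n L :=
    mul_le_mul_of_nonneg_right (by linarith) (KK_nonneg n L)
  linarith

section cases

variable (L : ℕ) (g0 : ℝ) {P : Finset (GP n)} (h : Inv P) (Z : GP n)
include h

theorem ps1_A (h1 : mn P ≤ sz Z) (h2 : sz Z ≤ mx P) : Ps1 L g0 (upd P Z) ≤ Ps1 L g0 P := by
  refine ps1_bound L g0 _ _ _ _ (mx_upd Z _ le_rfl h2) ?_ (mf_upd h Z)
  have a1 := mx_upd (P := P) Z _ le_rfl h2
  have a2 := mn_upd h Z _ le_rfl h1
  omega

theorem ps1_B (h1 : sz Z + 1 = mn P) : Ps1 L g0 (upd P Z) ≤ Ps1 L g0 P +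
    12 * (n + 1) * (wf (GG n) (mx P - mn P + 1) (mx P) - wf (GG n) (mx P - mn P) (mx P)) := by
  have a0 := mn_le_mx h.1
  have a1 := mx_upd (P := P) Z (mx P) le_rfl (by omega)
  have a2 := mn_upd h Z (sz Z) (by omega) le_rfl
  refine (ps1_bound L g0 _ (mx P) (mx P - mn P + 1) (mf P) a1 (by omega) (mf_upd h Z)).trans ?_
  unfold Ps1
  linarith

theorem ps1_C (h1 : sz Z = mx P + 1) (hL : mx P + 1 ≤ L) :
    Ps1 L g0 (upd P Z) ≤ Ps1 L g0 P := by
  have a0 := mn_le_mx h.1
  rcases upd_big h Z h1 with h2 | ⟨h2, h3, h4⟩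
  · rw [h2]
  · refine (ps1_bound L g0 _ (mx P + 1) (mx P - mn P + 1) (mf P + 1) h3 (by omega) h2).trans ?_
    unfold Ps1
    have a1 := wf_diff1 (GG n) (mx P - mn P) (mx P) (Nat.sub_le _ _)
    have a2 : ((mx P + 1 : ℕ) : ℝ) / GG n ≤ L / GG n :=
      div_le_div_of_nonneg_right (by exact_mod_cast hL) (by positivity)
    have a3 : 12 * ((n : ℝ) + 1) * (wf (GG n) (mx P - mn P + 1) (mx P + 1) -
        wf (GG n) (mx P - mn P) (mx P)) ≤ 12 * (n + 1) * (L / GG n + GG n / 2) :=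
      mul_le_mul_of_nonneg_left (by linarith) (by positivity)
    have a4 : KK n L = 8 + 12 * (n + 1) * (L / GG n + GG n / 2) := rfl
    push_cast
    nlinarith

theorem ps1_D (h1 : mf P ≤ fit Z) (h2 : sz Z + 1 = mx P) (k l : ℕ) (hk : mx P - mn P = k + 1)
    (hl : mx P = l + 1) : Ps1 L g0 (upd P Z) ≤ Ps1 L g0 P -
      (8 + 12 * (n + 1) * (wf (GG n) (k + 1) (l + 1) - wf (GG n) k l)) := by
  have a1 := upd_gain h Z h1 h2
  have a2 := mn_upd h Z (mn P) le_rfl (by omega)
  refine (ps1_bound L g0 _ l k (mf P) (by omega) (by omega) (mf_upd h Z)).trans ?_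
  unfold Ps1
  rw [hk, hl]
  push_cast
  linarith

theorem ps1_D0 (h1 : mf P ≤ fit Z) (h2 : sz Z + 1 = mx P) (hk : mx P = mn P) :
    Ps1 L g0 (upd P Z) ≤ Ps1 L g0 P - 8 := by
  have a1 := upd_gain h Z h1 h2
  have a2 := mn_upd h Z (sz Z) (by omega) le_rfl
  refine (ps1_bound L g0 _ (sz Z) 0 (mf P) (by omega) (by omega) (mf_upd h Z)).trans ?_
  unfold Ps1
  rw [hk, Nat.sub_self, wf_zero, wf_zero, ← hk, ← h2]
  push_cast
  linarith

end cases

/-- The cost of a deletion at the lowest member. -/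
noncomputable def cost (P : Finset (GP n)) : ℝ :=
  12 * (n + 1) * (wf (GG n) (mx P - mn P + 1) (mx P) - wf (GG n) (mx P - mn P) (mx P))

theorem cost_nonneg (P : Finset (GP n)) : 0 ≤ cost P := by
  unfold cost
  have := wf_mono_g (GG n) (mx P - mn P) (mx P)
  exact mul_nonneg (by positivity) (by linarith)

theorem insA (L : ℕ) (g0 : ℝ) {P : Finset (GP n)} (h : Inv P) (hL : mx P + 1 ≤ L) (t : Tr n)
    (hX : (some t : GP n) ∈ P) :
    avgF (fun d : Lit n => avgL (t.ins d) (fun z => Ps1 L g0 (upd P (some z)))) ≤ Ps1 L g0 P := by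
  refine avgF_le _ _ fun d => avgL_le _ (t.ins_ne_nil d) _ _ fun z hz => ?_
  have a1 := ins_len d t z hz
  have a2 : sz (some z) = z.leaves.length := rfl
  have a3 : sz (some t) = t.leaves.length := rfl
  have a4 := le_mx hX
  have a5 := mn_le hX
  by_cases h5 : sz (some z) ≤ mx P
  · exact ps1_A L g0 h _ (by omega) h5
  · exact ps1_C L g0 h _ (by omega) hL

theorem subA (L : ℕ) (g0 : ℝ) {P : Finset (GP n)} (h : Inv P) (t : Tr n)
    (hX : (some t : GP n) ∈ P) :
    avgF (fun d : Lit n => avgL (t.sub d) (fun z => Ps1 L g0 (upd P (some z)))) ≤ Ps1 L g0 P := by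
  refine avgF_le _ _ fun d => avgL_le _ (t.sub_ne_nil d) _ _ fun z hz => ?_
  have a1 := sub_len d t z hz
  have a2 : sz (some z) = z.leaves.length := rfl
  have a3 : sz (some t) = t.leaves.length := rfl
  have a4 := le_mx hX
  have a5 := mn_le hX
  exact ps1_A L g0 h _ (by omega) (by omega)

theorem generic (L : ℕ) (g0 : ℝ) {P : Finset (GP n)} (h : Inv P) (hL : mx P + 1 ≤ L)
    (hpos : 1 ≤ mx P) (X : GP n) (hX : X ∈ P) :
    hvlE X (fun Z => Ps1 L g0 (upd P Z)) ≤
      Ps1 L g0 P + (if sz X = mn P then cost P / 3 else 0) := by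
  have hc := cost_nonneg P
  cases X with
  | none =>
    have a1 := mn_le hX
    have a2 : sz (none : GP n) = 0 := rfl
    rw [if_pos (by omega)]
    have a3 : hvlE (none : GP n) (fun Z => Ps1 L g0 (upd P Z)) ≤ Ps1 L g0 P := by
      refine avgF_le _ _ fun d => ?_
      have a4 : sz (some (Tr.leaf d)) = 1 := rfl
      exact ps1_A L g0 h _ (by omega) (by omega)
    linarith
  | some t =>
    have a1 := insA L g0 h hL t hX
    have a2 := subA L g0 h t hX
    have b3 : sz (some t) = t.leaves.length := rfl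
    have b4 := le_mx hX
    have b5 := mn_le hX
    by_cases hs : sz (some t) = mn P
    · rw [if_pos hs]
      have a3 : avgL t.del (fun Z => Ps1 L g0 (upd P Z)) ≤ Ps1 L g0 P + cost P := by
        refine avgL_le _ t.del_ne_nil _ _ fun z hz => ?_
        have b1 := del_len t z hz
        exact ps1_B L g0 h z (by omega)
      unfold hvlE
      linarith
    · rw [if_neg hs]
      have a3 : avgL t.del (fun Z => Ps1 L g0 (upd P Z)) ≤ Ps1 L g0 P := by
        refine avgL_le _ t.del_ne_nil _ _ fun z hz => ?_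
        have b1 := del_len t z hz
        exact ps1_A L g0 h z (by omega) (by omega)
      unfold hvlE
      linarith

theorem top_pos (L : ℕ) (g0 : ℝ) {P : Finset (GP n)} (h : Inv P) (hL : mx P + 1 ≤ L)
    (X : GP n) (hX : X ∈ P) (hf : fit X = mf P) (hs : sz X = mx P) (k l : ℕ)
    (hk : mx P - mn P = k + 1) (hl : mx P = l + 1) :
    hvlE X (fun Z => Ps1 L g0 (upd P Z)) ≤ Ps1 L g0 P -
      (8 + 12 * (n + 1) * (wf (GG n) (k + 1) (l + 1) - wf (GG n) k l)) *
        (1 - n / (l + 1 : ℕ)) / 3 := by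
  set gain : ℝ := 8 + 12 * (n + 1) * (wf (GG n) (k + 1) (l + 1) - wf (GG n) k l) with hgain
  have hg0 : 0 ≤ gain := by
    have : wf (GG n) k l ≤ wf (GG n) (k + 1) (l + 1) := wf_mono (Nat.le_succ _) (Nat.le_succ _)
    have h2 : (0 : ℝ) ≤ 12 * (n + 1) * (wf (GG n) (k + 1) (l + 1) - wf (GG n) k l) :=
      mul_nonneg (by positivity) (by linarith)
    rw [hgain]; linarith
  cases X with
  | none =>
    have : sz (none : GP n) = 0 := rfl
    omega
  | some t =>
    have a1 := insA L g0 h hL t hX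
    have a2 := subA L g0 h t hX
    have b3 : sz (some t) = t.leaves.length := rfl
    have b6 : fit (some t) = fitL t.leaves := rfl
    have a3 : avgL t.del (fun Z => Ps1 L g0 (upd P Z)) ≤ (Ps1 L g0 P - gain) +
        (Ps1 L g0 P - (Ps1 L g0 P - gain)) * n / t.del.length := by
      refine avgL_le_two t.del t.del_ne_nil _ _ _ n (fun z => fit z < fitL t.leaves)
        (by linarith) (bad_le t) ?_ ?_
      · intro z hz hb
        have b1 := del_len t z hz
        exact ps1_D L g0 h z (by omega) (by omega) k l hk hl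
      · intro z hz _
        have b1 := del_len t z hz
        exact ps1_A L g0 h z (by omega) (by omega)
    rw [del_length, ← b3, hs, hl] at a3
    unfold hvlE
    have e : (Ps1 L g0 P - gain) + (Ps1 L g0 P - (Ps1 L g0 P - gain)) * n / ((l + 1 : ℕ) : ℝ) =
        Ps1 L g0 P - gain * (1 - n / (l + 1 : ℕ)) := by ring
    rw [e] at a3
    linarith

theorem top_zero (L : ℕ) (g0 : ℝ) {P : Finset (GP n)} (h : Inv P) (hL : mx P + 1 ≤ L)
    (X : GP n) (hX : X ∈ P) (hf : fit X = mf P) (hs : sz X = mx P)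
    (hk : mx P = mn P) (hpos : 1 ≤ mx P) :
    hvlE X (fun Z => Ps1 L g0 (upd P Z)) ≤ Ps1 L g0 P -
      (8 - (8 + 12 * (n + 1) * ((mx P : ℝ) / (2 * GG n) + GG n / 2)) * n / mx P) / 3 := by
  have hpos' : (1 : ℝ) ≤ mx P := by exact_mod_cast hpos
  cases X with
  | none =>
    have : sz (none : GP n) = 0 := rfl
    omega
  | some t =>
    have a1 := insA L g0 h hL t hX
    have a2 := subA L g0 h t hX
    have b3 : sz (some t) = t.leaves.length := rfl
    have b6 : fit (some t) = fitL t.leaves := rfl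
    set c2 : ℝ := 12 * (n + 1) * ((mx P : ℝ) / (2 * GG n) + GG n / 2) with hc2
    have hc20 : 0 ≤ c2 := by rw [hc2]; positivity
    have a3 : avgL t.del (fun Z => Ps1 L g0 (upd P Z)) ≤ (Ps1 L g0 P - 8) +
        ((Ps1 L g0 P + c2) - (Ps1 L g0 P - 8)) * n / t.del.length := by
      refine avgL_le_two t.del t.del_ne_nil _ _ _ n (fun z => fit z < fitL t.leaves)
        (by linarith) (bad_le t) ?_ ?_
      · intro z hz hb
        have b1 := del_len t z hz
        exact ps1_D0 L g0 h z (by omega) (by omega) hk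
      · intro z hz _
        have b1 := del_len t z hz
        have b2 := ps1_B L g0 h z (by omega)
        rw [← hk, Nat.sub_self, wf_zero, zero_add, wf_one, sub_zero] at b2
        exact b2
    rw [del_length, ← b3, hs] at a3
    unfold hvlE
    have e : (Ps1 L g0 P - 8) + ((Ps1 L g0 P + c2) - (Ps1 L g0 P - 8)) * n / (mx P : ℝ) =
        Ps1 L g0 P - (8 - (8 + c2) * n / mx P) := by ring
    rw [e] at a3
    linarith

end Pool.V113.Smo
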