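import Pool.Agent.V113.Smo.Drift

open scoped ENNReal

namespace Pool.V113.Smo

variable {n : ℕ} [NeZero n]

theorem hvlE_le (X : GP n) (h : GP n → ℝ) (c : ℝ) (hh : ∀ Z, Out X Z → h Z ≤ c) :
    hvlE X h ≤ c := by
  cases X with
  | none => exact avgF_le _ _ fun d => hh _ ⟨d, rfl⟩
  | some t =>
    have h1 : avgF (fun c : Lit n => avgL (t.ins c) (fun z => h (some z))) ≤ c :=
      avgF_le _ _ fun d => avgL_le _ (t.ins_ne_nil d) _ _ fun z hz => hh _ (Or.inl ⟨d, z, hz, rfl⟩)
    have h2 : avgL t.del h ≤ c :=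
      avgL_le _ t.del_ne_nil _ _ fun z hz => hh _ (Or.inr (Or.inl hz))
    have h3 : avgF (fun c : Lit n => avgL (t.sub c) (fun z => h (some z))) ≤ c :=
      avgF_le _ _ fun d => avgL_le _ (t.sub_ne_nil d) _ _
        fun z hz => hh _ (Or.inr (Or.inr ⟨d, z, hz, rfl⟩))
    unfold hvlE
    linarith

/-- If all members give at most `c` and one gives at most `c - d`. -/
theorem stepE_le_one (P : Finset (GP n)) (h : Finset (GP n) → ℝ) (c d : ℝ) (X : GP n)
    (hX : X ∈ P) (hc : ∀ Y ∈ P, hvlE Y (fun Z => h (upd P Z)) ≤ c)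
    (hd : hvlE X (fun Z => h (upd P Z)) ≤ c - d) (hcard : (P.card : ℝ) ≤ d) :
    stepE P h + 1 ≤ c := by
  classical
  have h1 : (0 : ℝ) < P.card := by exact_mod_cast Finset.card_pos.2 ⟨X, hX⟩
  unfold stepE
  rw [← Finset.add_sum_erase _ _ hX]
  have h2 : ∑ Y ∈ P.erase X, hvlE Y (fun Z => h (upd P Z)) ≤ ∑ _Y ∈ P.erase X, c :=
    Finset.sum_le_sum fun Y hY => hc Y (Finset.mem_of_mem_erase hY)
  rw [Finset.sum_const, Finset.card_erase_of_mem hX, nsmul_eq_mul,
    Nat.cast_sub (Finset.card_pos.2 ⟨X, hX⟩)] at h2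
  push_cast at h2
  have h3 : (hvlE X (fun Z => h (upd P Z)) + ∑ Y ∈ P.erase X, hvlE Y (fun Z => h (upd P Z))) /
      P.card ≤ c - 1 := by
    rw [div_le_iff₀ h1]
    nlinarith
  linarith

open Classical in
/-- number of attained vectors `(i, i)` -/
noncomputable def cnt (P : Finset (GP n)) : ℕ := ((Finset.range (n + 1)).filter (Att P)).card

theorem cnt_le (P : Finset (GP n)) : cnt P ≤ n + 1 := by
  classical
  unfold cnt
  refine (Finset.card_filter_le _ _).trans ?_
  rw [Finset.card_range]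

theorem cnt_upd (P : Finset (GP n)) (Z : GP n) : cnt P ≤ cnt (upd P Z) := by
  classical
  unfold cnt
  apply Finset.card_le_card
  intro i hi
  rw [Finset.mem_filter] at hi ⊢
  exact ⟨hi.1, att_upd hi.2 Z⟩

theorem cnt_new (P : Finset (GP n)) (Z : GP n) (i : ℕ) (hi : i ≤ n) (h : ¬ Att P i)
    (hf : fit Z = i) (hs : sz Z = i) : cnt P + 1 ≤ cnt (upd P Z) := by
  classical
  unfold cnt
  have h1 : i ∉ (Finset.range (n + 1)).filter (Att P) := by
    rw [Finset.mem_filter]
    exact fun hh => h hh.2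
  rw [← Finset.card_insert_of_notMem h1]
  apply Finset.card_le_card
  intro j hj
  rw [Finset.mem_insert, Finset.mem_filter] at hj
  rw [Finset.mem_filter]
  rcases hj with rfl | hj
  · exact ⟨Finset.mem_range.2 (by omega), att_new Z hf hs⟩
  · exact ⟨hj.1, att_upd hj.2 Z⟩

/-- The distance to optimality. -/
noncomputable def rr (P : Finset (GP n)) : ℕ := mn P + (n + 1 - cnt P)

theorem rr_upd {P : Finset (GP n)} (h : Inv P) (Z : GP n) : rr (upd P Z) ≤ rr P := by
  unfold rr
  have h1 := mn_upd_le h Z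
  have h2 := cnt_upd P Z
  omega

/-- The potential of the second phase. -/
noncomputable def Ps2 (N : ℕ) (P : Finset (GP n)) : ℝ := rr P * (24 * n * (n + 1) * N)

theorem ps2_nonneg (N : ℕ) (P : Finset (GP n)) : 0 ≤ Ps2 N P := by unfold Ps2; positivity

theorem ps2_upd (N : ℕ) {P : Finset (GP n)} (h : Inv P) (Z : GP n) :
    Ps2 N (upd P Z) ≤ Ps2 N P := by
  unfold Ps2
  have h1 : (rr (upd P Z) : ℝ) ≤ rr P := by exact_mod_cast rr_upd h Z
  exact mul_le_mul_of_nonneg_right h1 (by positivity)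

theorem ps2_new (N : ℕ) {P : Finset (GP n)} (Z : GP n) (h : rr (upd P Z) + 1 ≤ rr P) :
    Ps2 N (upd P Z) ≤ Ps2 N P - 24 * n * (n + 1) * N := by
  unfold Ps2
  have h1 : (rr (upd P Z) : ℝ) + 1 ≤ rr P := by exact_mod_cast h
  have h2 : (0 : ℝ) ≤ 24 * n * (n + 1) * N := by positivity
  nlinarith

theorem exists_nonatt {P : Finset (GP n)} (ho : ¬ Opt P) : ∃ i, i ≤ n ∧ ¬ Att P i := by
  by_contra hcon
  push Not at hcon
  exact ho (opt_of P hcon)

theorem ps2_drift (B : ℕ) (P : Finset (GP n)) (hP : Reg B P) (ho : ¬ Opt P) :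
    stepE P (Ps2 (B + n + 1)) + 1 ≤ Ps2 (B + n + 1) P := by
  classical
  have hn : (1 : ℝ) ≤ n := by exact_mod_cast Nat.one_le_iff_ne_zero.2 (NeZero.ne n)
  have hN : (1 : ℝ) ≤ ((B + n + 1 : ℕ) : ℝ) := by exact_mod_cast Nat.le_add_left 1 _
  have hcard : (P.card : ℝ) ≤ n + 1 := by exact_mod_cast card_le hP.1
  have hall : ∀ Y ∈ P, hvlE Y (fun Z => Ps2 (B + n + 1) (upd P Z)) ≤ Ps2 (B + n + 1) P :=
    fun Y _ => hvlE_le _ _ _ fun Z _ => ps2_upd _ hP.1 Z
  by_cases hm : mn P = 0
  · -- the empty tree is a member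
    obtain ⟨X0, hX0, hs0⟩ := exists_mn hP.1.1
    have hatt0 : Att P 0 := by
      have := fit_le_sz X0
      exact ⟨X0, hX0, by omega, by omega⟩
    obtain ⟨i0, hi0, hi0'⟩ := exists_nonatt ho
    let i := Nat.find (p := fun i => i ≤ n ∧ ¬ Att P i) ⟨i0, hi0, hi0'⟩
    have hi : i ≤ n ∧ ¬ Att P i := Nat.find_spec (p := fun i => i ≤ n ∧ ¬ Att P i) ⟨i0, hi0, hi0'⟩
    have hipos : i ≠ 0 := fun e => hi.2 (e ▸ hatt0)
    have hprev : Att P (i - 1) := by
      by_contra hcon
      have := Nat.find_min' (p := fun i => i ≤ n ∧ ¬ Att P i) ⟨i0, hi0, hi0'⟩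
        (⟨by omega, hcon⟩ : (i - 1) ≤ n ∧ ¬ Att P (i - 1))
      change i ≤ i - 1 at this
      omega
    obtain ⟨X, hX, hXf, hXs⟩ := hprev
    obtain ⟨j, hj⟩ := exists_new (lv X) (by
      have : (lv X).length = sz X := rfl
      omega)
    obtain ⟨hg1, hg2⟩ := app_good X (i - 1) hXf hXs j hj
    have hr : rr (upd P (app X (j, true))) + 1 ≤ rr P := by
      unfold rr
      have h1 := mn_upd_le hP.1 (app X (j, true))
      have h2 := cnt_new P (app X (j, true)) i hi.1 hi.2 (by omega) (by omega)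
      have h3 := cnt_le (upd P (app X (j, true)))
      omega
    have hnew := ps2_new (B + n + 1) (app X (j, true)) hr
    refine stepE_le_one P _ _ (n + 1) X hX hall ?_ hcard
    have hcardL : (Fintype.card (Lit n) : ℝ) = 2 * n := by
      simp [Lit, mul_comm]
    cases X with
    | none =>
      have h5 : hvlE (none : GP n) (fun Z => Ps2 (B + n + 1) (upd P Z)) ≤
          Ps2 (B + n + 1) P - (Ps2 (B + n + 1) P -
            (Ps2 (B + n + 1) P - 24 * n * (n + 1) * (B + n + 1 : ℕ))) / Fintype.card (Lit n) :=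
        avgF_le_one _ _ _ (j, true) (fun a => ps2_upd _ hP.1 _) hnew
      refine h5.trans ?_
      rw [hcardL]
      have h6 : (n + 1 : ℝ) ≤ (Ps2 (B + n + 1) P -
            (Ps2 (B + n + 1) P - 24 * n * (n + 1) * (B + n + 1 : ℕ))) / (2 * n) := by
        rw [le_div_iff₀ (by linarith)]
        nlinarith [mul_nonneg (by linarith : (0 : ℝ) ≤ n) (by linarith : (0 : ℝ) ≤ n + 1),
          mul_nonneg (mul_nonneg (by linarith : (0 : ℝ) ≤ n) (by linarith : (0 : ℝ) ≤ n + 1))
            (by linarith : (0 : ℝ) ≤ ((B + n + 1 : ℕ) : ℝ) - 1)]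
      linarith
    | some t =>
      set M : ℝ := 24 * n * (n + 1) * (B + n + 1 : ℕ) with hM
      set c : ℝ := Ps2 (B + n + 1) P with hc
      have hM0 : 0 ≤ M := by rw [hM]; positivity
      have hlen : ((t.ins (j, true)).length : ℝ) ≤ 4 * (B + n + 1 : ℕ) := by
        have h7 := ins_length (j, true) t
        have h8 := le_mx hX
        have h9 := reg_mx hP
        have h10 : sz (some t) = t.leaves.length := rfl
        have : (t.ins (j, true)).length ≤ 4 * (B + n + 1) := by omega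
        exact_mod_cast this
      have hlen0 : (0 : ℝ) < (t.ins (j, true)).length := by
        exact_mod_cast List.length_pos_iff.2 (t.ins_ne_nil _)
      have h1 : avgL (t.ins (j, true)) (fun z => Ps2 (B + n + 1) (upd P (some z))) ≤
          c - (c - (c - M)) / (t.ins (j, true)).length :=
        avgL_le_one _ _ _ _ (Tr.node t (Tr.leaf (j, true))) (ins_mem _ t)
          (fun z _ => ps2_upd _ hP.1 _) hnew
      have h2 : avgF (fun d : Lit n => avgL (t.ins d) (fun z => Ps2 (B + n + 1) (upd P (some z)))) ≤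
          c - (c - (c - (c - (c - M)) / (t.ins (j, true)).length)) / Fintype.card (Lit n) :=
        avgF_le_one _ _ _ (j, true)
          (fun d => avgL_le _ (t.ins_ne_nil d) _ _ fun z _ => ps2_upd _ hP.1 _) h1
      have h3 : avgL t.del (fun Z => Ps2 (B + n + 1) (upd P Z)) ≤ c :=
        avgL_le _ t.del_ne_nil _ _ fun z _ => ps2_upd _ hP.1 _
      have h4 : avgF (fun d : Lit n => avgL (t.sub d) (fun z => Ps2 (B + n + 1) (upd P (some z)))) ≤ c :=
        avgF_le _ _ fun d => avgL_le _ (t.sub_ne_nil d) _ _ fun z _ => ps2_upd _ hP.1 _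
      have h5 : (3 * (n + 1) : ℝ) ≤
          (c - (c - (c - (c - M)) / (t.ins (j, true)).length)) / Fintype.card (Lit n) := by
        have e : (c - (c - (c - (c - M)) / (t.ins (j, true)).length)) =
            M / (t.ins (j, true)).length := by ring
        rw [e, hcardL, le_div_iff₀ (by linarith), le_div_iff₀ hlen0]
        have h6 : (3 * ((n : ℝ) + 1)) * (2 * n) * (t.ins (j, true)).length ≤
            (3 * ((n : ℝ) + 1)) * (2 * n) * (4 * (B + n + 1 : ℕ)) :=
          mul_le_mul_of_nonneg_left hlen (by positivity)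
        refine h6.trans (le_of_eq ?_)
        rw [hM]
        ring
      unfold hvlE
      linarith
  · obtain ⟨X, hX, hs⟩ := exists_mn hP.1.1
    refine stepE_le_one P _ _ (n + 1) X hX hall ?_ hcard
    cases X with
    | none => exact absurd hs.symm hm
    | some t =>
      have h10 : sz (some t) = t.leaves.length := rfl
      set M : ℝ := 24 * n * (n + 1) * (B + n + 1 : ℕ) with hM
      set c : ℝ := Ps2 (B + n + 1) P with hc
      have h3 : avgL t.del (fun Z => Ps2 (B + n + 1) (upd P Z)) ≤ c - M := by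
        refine avgL_le _ t.del_ne_nil _ _ fun z hz => ?_
        apply ps2_new
        unfold rr
        have h1 := del_len t z hz
        have h2 := mn_new (P := P) z (by omega)
        have h3 := cnt_upd P z
        omega
      have h2 : avgF (fun d : Lit n => avgL (t.ins d) (fun z => Ps2 (B + n + 1) (upd P (some z)))) ≤ c :=
        avgF_le _ _ fun d => avgL_le _ (t.ins_ne_nil d) _ _ fun z _ => ps2_upd _ hP.1 _
      have h4 : avgF (fun d : Lit n => avgL (t.sub d) (fun z => Ps2 (B + n + 1) (upd P (some z)))) ≤ c :=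
        avgF_le _ _ fun d => avgL_le _ (t.sub_ne_nil d) _ _ fun z _ => ps2_upd _ hP.1 _
      have h5 : 3 * (n + 1 : ℝ) ≤ M := by
        rw [hM]
        have h6 : (1 : ℝ) ≤ n * (B + n + 1 : ℕ) := by nlinarith
        nlinarith
      unfold hvlE
      linarith

theorem phase2 (B : ℕ) (P : Finset (GP n)) (hP : Reg B P) :
    ET P ≤ ENNReal.ofReal ((B + 2 * n + 1) * (24 * n * (n + 1) * (B + n + 1))) := by
  have h1 := drift (Reg B) (fun P h => h.1.1) (fun P h X hX Z hZ => reg_upd B P h X hX Z hZ)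
    (Ps2 (B + n + 1)) (ps2_nonneg _) (fun P hP ho => Or.inr (ps2_drift B P hP ho)) P hP
  refine h1.trans (ENNReal.ofReal_le_ofReal ?_)
  unfold Ps2
  have h2 : rr P ≤ B + 2 * n + 1 := by
    unfold rr
    have h3 := mn_le_mx hP.1.1
    have h4 := reg_mx hP
    omega
  have h3 : (rr P : ℝ) ≤ B + 2 * n + 1 := by exact_mod_cast h2
  push_cast
  exact mul_le_mul_of_nonneg_right h3 (by positivity)

end Pool.V113.Smo
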