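import Mathlib

/-!
# SMO-GP on ORDER (one application of HVL-Prime per iteration)

Model definitions: trees over the literals, the ORDER fitness, HVL-Prime, the algorithm SMO-GP
with `k = 1`, its optimization time and the worst case of its expectation.
-/

open scoped ENNReal

namespace Pool.V113.Smo

/-- The literals: `(i, true)` is `x_i` and `(i, false)` is its negation. -/
abbrev Lit (n : ℕ) : Type := Fin n × Bool

/-- Nonempty trees: binary trees with leaves labelled by literals. -/
inductive Tr (n : ℕ) : Type
  | leaf : Lit n → Tr n
  | node : Tr n → Tr n → Tr n
deriving DecidableEq

namespace Tr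

variable {n : ℕ}

/-- The labels of the leaves, in in-order. -/
def leaves : Tr n → List (Lit n)
  | leaf a => [a]
  | node l r => l.leaves ++ r.leaves

/-- The outcomes of INS with a given literal `c`: for every node `v` and both orders, `v` is
replaced by a new inner node with children `v` and `c`. -/
def ins (c : Lit n) : Tr n → List (Tr n)
  | leaf a => [node (leaf a) (leaf c), node (leaf c) (leaf a)]
  | node l r => [node (node l r) (leaf c), node (leaf c) (node l r)] ++
      ((l.ins c).map (fun l' => node l' r) ++ (r.ins c).map (fun r' => node l r'))

/-- The outcomes of DEL, one for every leaf: its parent is replaced by its sibling; a lone root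
leaf is removed (`none` is the empty tree). -/
def del : Tr n → List (Option (Tr n))
  | leaf _ => [none]
  | node l r => l.del.map (fun l' => match l' with
        | none => some r
        | some l'' => some (node l'' r)) ++
      r.del.map (fun r' => match r' with
        | none => some l
        | some r'' => some (node l r''))

/-- The outcomes of SUB with a given literal `c`, one for every node: a leaf is relabelled by `c`,
an inner node is unchanged. -/
def sub (c : Lit n) : Tr n → List (Tr n)
  | leaf _ => [leaf c]
  | node l r => [node l r] ++
      ((l.sub c).map (fun l' => node l' r) ++ (r.sub c).map (fun r' => node l r'))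

theorem leaves_ne_nil : ∀ t : Tr n, t.leaves ≠ []
  | leaf a => by simp [leaves]
  | node l r => by
      have := leaves_ne_nil l
      simp [leaves, this]

theorem ins_ne_nil (c : Lit n) : ∀ t : Tr n, t.ins c ≠ []
  | leaf a => by simp [ins]
  | node l r => by simp [ins]

theorem del_ne_nil : ∀ t : Tr n, t.del ≠ []
  | leaf a => by simp [del]
  | node l r => by
      have := del_ne_nil l
      simp [del, this]

theorem sub_ne_nil (c : Lit n) : ∀ t : Tr n, t.sub c ≠ []
  | leaf a => by simp [sub]
  | node l r => by simp [sub]

end Tr

/-- Genetic programming trees; `none` is the empty tree. -/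
abbrev GP (n : ℕ) : Type := Option (Tr n)

section Obj

variable {n : ℕ}

/-- The labels of the leaves, in in-order. -/
def lv : GP n → List (Lit n)
  | none => []
  | some t => t.leaves

/-- The size: the number of leaves. -/
def sz (X : GP n) : ℕ := (lv X).length

/-- The variable `x_i` is expressed: among the leaves labelled `x_i` or its negation there is a
first one, and it is labelled `x_i`. -/
def Expressed (l : List (Lit n)) (i : Fin n) : Prop :=
  l.find? (fun a => decide (a.1 = i)) = some (i, true)

instance (l : List (Lit n)) (i : Fin n) : Decidable (Expressed l i) := by
  unfold Expressed; infer_instance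

/-- The ORDER fitness of a sequence of leaves. -/
def fitL (l : List (Lit n)) : ℕ := (Finset.univ.filter (fun i => Expressed l i)).card

/-- The ORDER fitness: the number of expressed variables. -/
def fit (X : GP n) : ℕ := fitL (lv X)

/-- Weak dominance. -/
def WD (X Y : GP n) : Prop := fit Y ≤ fit X ∧ sz X ≤ sz Y

/-- Strict dominance. -/
def SD (X Y : GP n) : Prop := WD X Y ∧ (fit Y < fit X ∨ sz X < sz Y)

instance (X Y : GP n) : Decidable (WD X Y) := by unfold WD; infer_instance
instance (X Y : GP n) : Decidable (SD X Y) := by unfold SD; infer_instance

/-- The new population after the offspring `Z` has been created. -/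
def upd (P : Finset (GP n)) (Z : GP n) : Finset (GP n) :=
  if ∃ X ∈ P, SD X Z then P else insert Z (P.filter (fun X => ¬ WD Z X))

/-- The population contains, for every Pareto-optimal objective vector, a tree attaining it. -/
def Opt (P : Finset (GP n)) : Prop :=
  ∀ X : GP n, (∀ Y : GP n, ¬ SD Y X) → ∃ Z ∈ P, fit Z = fit X ∧ sz Z = sz X

end Obj

/-- The uniform distribution on the entries of a nonempty list (with multiplicity). -/
noncomputable def unif {α : Type} (l : List α) (h : l ≠ []) : PMF α :=
  haveI : Nonempty (Fin l.length) := ⟨⟨0, List.length_pos_iff.2 h⟩⟩
  (PMF.uniformOfFintype (Fin l.length)).map l.get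

section Alg

variable {n : ℕ} [NeZero n]

/-- One application of HVL-Prime. -/
noncomputable def hvl : GP n → PMF (GP n)
  | none => (PMF.uniformOfFintype (Lit n)).map (fun c => some (Tr.leaf c))
  | some t => (PMF.uniformOfFintype (Fin 3)).bind (fun op =>
      if op = 0 then
        (PMF.uniformOfFintype (Lit n)).bind (fun c => (unif (t.ins c) (t.ins_ne_nil c)).map some)
      else if op = 1 then unif t.del t.del_ne_nil
      else
        (PMF.uniformOfFintype (Lit n)).bind (fun c => (unif (t.sub c) (t.sub_ne_nil c)).map some))

open Classical in
/-- One iteration of SMO-GP with `k = 1`: a parent is chosen uniformly from the population `P`, the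
offspring is obtained by one application of HVL-Prime, and the population is updated. (`P` is never
empty.) -/
noncomputable def step (P : Finset (GP n)) : PMF (Finset (GP n)) :=
  if h : P.Nonempty then (PMF.uniformOfFinset P h).bind (fun X => (hvl X).map (upd P))
  else PMF.pure P

open Classical in
/-- `surv t P` is the probability that, starting from the population `P`, the optimization time is
larger than `t`: none of the first `t + 1` populations (the initial one included) is optimal. -/
noncomputable def surv : ℕ → Finset (GP n) → ℝ≥0∞
  | 0, P => if Opt P then 0 else 1
  | t + 1, P => if Opt P then 0 else ∑' Q, step P Q * surv t Q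

/-- The expected optimization time starting from the population `P`. -/
noncomputable def ET (P : Finset (GP n)) : ℝ≥0∞ := ∑' t, surv t P

end Alg

/-- The worst-case expected optimization time over the initial trees with `T` leaves. -/
noncomputable def worst (n : ℕ) [NeZero n] (T : ℕ) : ℝ≥0∞ :=
  ⨆ (t : Tr n) (_ : t.leaves.length = T), ET {(some t : GP n)}

end Pool.V113.Smo
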