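import Pool.Agent.V113.Smo.Ev

namespace Pool.V113.Smo

variable {n : ℕ}

theorem ins_len (c : Lit n) : ∀ (t : Tr n), ∀ z ∈ t.ins c, z.leaves.length = t.leaves.length + 1
  | .leaf a => by
      intro z hz
      simp only [Tr.ins, List.mem_cons, List.not_mem_nil, or_false] at hz
      rcases hz with rfl | rfl <;> simp [Tr.leaves]
  | .node l r => by
      intro z hz
      simp only [Tr.ins, List.mem_append, List.mem_cons, List.not_mem_nil, or_false,
        List.mem_map] at hz
      rcases hz with (rfl | rfl) | ⟨z', hz', rfl⟩ | ⟨z', hz', rfl⟩
      · simp [Tr.leaves]; omega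
      · simp [Tr.leaves]
      · have := ins_len c l z' hz'
        simp [Tr.leaves, this]; omega
      · have := ins_len c r z' hz'
        simp [Tr.leaves, this]; omega

theorem sub_len (c : Lit n) : ∀ (t : Tr n), ∀ z ∈ t.sub c, z.leaves.length = t.leaves.length
  | .leaf a => by
      intro z hz
      simp only [Tr.sub, List.mem_cons, List.not_mem_nil, or_false] at hz
      rw [hz]; simp [Tr.leaves]
  | .node l r => by
      intro z hz
      simp only [Tr.sub, List.mem_append, List.mem_cons, List.not_mem_nil, or_false,
        List.mem_map] at hz
      rcases hz with rfl | ⟨z', hz', rfl⟩ | ⟨z', hz', rfl⟩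
      · rfl
      · have := sub_len c l z' hz'
        simp [Tr.leaves, this]
      · have := sub_len c r z' hz'
        simp [Tr.leaves, this]

theorem ins_length (c : Lit n) : ∀ (t : Tr n), (t.ins c).length + 2 = 4 * t.leaves.length
  | .leaf a => by simp [Tr.ins, Tr.leaves]
  | .node l r => by
      have h1 := ins_length c l
      have h2 := ins_length c r
      simp only [Tr.ins, Tr.leaves, List.length_append, List.length_cons, List.length_nil,
        List.length_map]
      omega

theorem ins_mem (c : Lit n) : ∀ (t : Tr n), Tr.node t (Tr.leaf c) ∈ t.ins c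
  | .leaf a => by simp [Tr.ins]
  | .node l r => by simp [Tr.ins]

theorem del_lv : ∀ (t : Tr n), t.del.map lv =
    (List.range t.leaves.length).map (fun k => t.leaves.eraseIdx k)
  | .leaf a => by simp [Tr.del, Tr.leaves, lv]
  | .node l r => by
      have h1 := del_lv l
      have h2 := del_lv r
      simp only [Tr.del, Tr.leaves, List.map_append, List.map_map, List.length_append]
      rw [List.range_add, List.map_append]
      congr 1
      · refine (List.map_congr_left (g := (fun x => x ++ r.leaves) ∘ lv)
          (fun x _ => by cases x <;> rfl)).trans ?_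
        rw [← List.map_map, h1, List.map_map]
        apply List.map_congr_left
        intro k hk
        rw [List.mem_range] at hk
        exact (List.eraseIdx_append_of_lt_length hk _).symm
      · refine (List.map_congr_left (g := (fun x => l.leaves ++ x) ∘ lv)
          (fun x _ => by
            cases x
            · exact (List.append_nil _).symm
            · rfl)).trans ?_
        rw [← List.map_map, h2, List.map_map, List.map_map]
        apply List.map_congr_left
        intro k _
        change l.leaves ++ r.leaves.eraseIdx k = (l.leaves ++ r.leaves).eraseIdx (l.leaves.length + k)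
        rw [List.eraseIdx_append_of_length_le (Nat.le_add_right _ _), Nat.add_sub_cancel_left]

theorem del_length (t : Tr n) : t.del.length = t.leaves.length := by
  have := congrArg List.length (del_lv t)
  simpa using this

theorem del_len (t : Tr n) : ∀ z ∈ t.del, sz z + 1 = t.leaves.length := by
  intro z hz
  have h1 : lv z ∈ t.del.map lv := List.mem_map_of_mem hz
  rw [del_lv, List.mem_map] at h1
  obtain ⟨k, hk, hk'⟩ := h1
  rw [List.mem_range] at hk
  unfold sz
  rw [← hk', List.length_eraseIdx_of_lt hk]
  omega

theorem find_erase {α : Type} (p : α → Bool) (a : α) : ∀ (l : List α) (k : ℕ),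
    l.find? p = some a → k ≠ l.findIdx p → (l.eraseIdx k).find? p = some a := by
  intro l
  induction l with
  | nil => intro k h; simp at h
  | cons b l ih =>
    intro k h hk
    by_cases hb : p b = true
    · rw [List.find?_cons_of_pos hb] at h
      rw [List.findIdx_cons, hb] at hk
      cases k with
      | zero => exact absurd rfl hk
      | succ k =>
        rw [List.eraseIdx_cons_succ, List.find?_cons_of_pos hb]
        exact h
    · rw [List.find?_cons_of_neg hb] at h
      cases k with
      | zero => exact h
      | succ k =>
        rw [List.eraseIdx_cons_succ, List.find?_cons_of_neg hb]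
        apply ih k h
        intro e
        apply hk
        have hb' : p b = false := by simpa using hb
        rw [List.findIdx_cons, hb', e]
        rfl

theorem fitL_le (l : List (Lit n)) : fitL l ≤ n := by
  unfold fitL
  refine (Finset.card_filter_le _ _).trans ?_
  simp

theorem fit_le (X : GP n) : fit X ≤ n := fitL_le _

theorem mem_of_expressed {l : List (Lit n)} {i : Fin n} (h : Expressed l i) : (i, true) ∈ l :=
  List.mem_of_find?_eq_some h

theorem fitL_le_length (l : List (Lit n)) : fitL l ≤ l.length := by
  classical
  unfold fitL
  have h1 : (Finset.univ.filter (fun i => Expressed l i)) ⊆ (l.map Prod.fst).toFinset := by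
    intro i hi
    rw [Finset.mem_filter] at hi
    rw [List.mem_toFinset, List.mem_map]
    exact ⟨(i, true), mem_of_expressed hi.2, rfl⟩
  refine (Finset.card_le_card h1).trans ?_
  refine (List.toFinset_card_le _).trans ?_
  simp

theorem fit_le_sz (X : GP n) : fit X ≤ sz X := fitL_le_length _

/-- The number of deletions that decrease the fitness is at most `n`. -/
theorem bad_le (t : Tr n) :
    (t.del.filter (fun z => decide (fit z < fitL t.leaves))).length ≤ n := by
  classical
  have h1 : (t.del.filter (fun z => decide (fit z < fitL t.leaves))).length =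
      ((List.range t.leaves.length).filter
        (fun k => decide (fitL (t.leaves.eraseIdx k) < fitL t.leaves))).length := by
    have e1 : (t.del.filter (fun z => decide (fit z < fitL t.leaves))).length =
        ((t.del.map lv).filter (fun l => decide (fitL l < fitL t.leaves))).length := by
      rw [List.filter_map, List.length_map]
      rfl
    rw [e1, del_lv, List.filter_map, List.length_map]
    rfl
  rw [h1]
  have hnd : ((List.range t.leaves.length).filter
        (fun k => decide (fitL (t.leaves.eraseIdx k) < fitL t.leaves))).Nodup :=
    List.nodup_range.filter _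
  rw [← List.toFinset_card_of_nodup hnd]
  have h2 : ((List.range t.leaves.length).filter
        (fun k => decide (fitL (t.leaves.eraseIdx k) < fitL t.leaves))).toFinset ⊆
      Finset.univ.image (fun i : Fin n => t.leaves.findIdx (fun a => decide (a.1 = i))) := by
    intro k hk
    rw [List.mem_toFinset, List.mem_filter] at hk
    have hk2 : fitL (t.leaves.eraseIdx k) < fitL t.leaves := by simpa using hk.2
    by_contra hne
    apply absurd hk2
    rw [not_lt]
    unfold fitL
    apply Finset.card_le_card
    intro i hi
    rw [Finset.mem_filter] at hi ⊢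
    refine ⟨Finset.mem_univ _, ?_⟩
    apply find_erase _ _ _ _ hi.2
    intro e
    apply hne
    rw [Finset.mem_image]
    exact ⟨i, Finset.mem_univ _, e.symm⟩
  refine (Finset.card_le_card h2).trans ?_
  refine Finset.card_image_le.trans ?_
  simp

theorem fitL_append (l : List (Lit n)) (j : Fin n) (hj : ∀ a ∈ l, a.1 ≠ j) :
    fitL l + 1 ≤ fitL (l ++ [(j, true)]) := by
  classical
  unfold fitL
  have h1 : j ∉ Finset.univ.filter (fun i => Expressed l i) := by
    intro h
    rw [Finset.mem_filter] at h
    exact hj _ (mem_of_expressed h.2) rfl
  rw [← Finset.card_insert_of_notMem h1]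
  apply Finset.card_le_card
  intro i hi
  rw [Finset.mem_insert] at hi
  rw [Finset.mem_filter]
  refine ⟨Finset.mem_univ _, ?_⟩
  unfold Expressed
  rw [List.find?_append]
  rcases hi with rfl | hi
  · have h2 : l.find? (fun a => decide (a.1 = i)) = none := by
      rw [List.find?_eq_none]
      intro a ha
      simpa using hj a ha
    rw [h2]
    simp
  · rw [Finset.mem_filter] at hi
    have h2 := hi.2
    unfold Expressed at h2
    rw [h2]
    rfl

theorem exists_new (l : List (Lit n)) (hl : l.length < n) : ∃ j : Fin n, ∀ a ∈ l, a.1 ≠ j := by
  classical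
  by_contra hcon
  push Not at hcon
  have h1 : (Finset.univ : Finset (Fin n)) ⊆ (l.map Prod.fst).toFinset := by
    intro j _
    obtain ⟨a, ha, hj⟩ := hcon j
    rw [List.mem_toFinset, List.mem_map]
    exact ⟨a, ha, hj⟩
  have h2 := Finset.card_le_card h1
  have h3 := List.toFinset_card_le (l.map Prod.fst)
  simp only [Finset.card_univ, Fintype.card_fin, List.length_map] at h2 h3
  omega

/-- append a literal -/
def app (X : GP n) (c : Lit n) : GP n := match X with
  | none => some (Tr.leaf c)
  | some t => some (Tr.node t (Tr.leaf c))

theorem lv_app (X : GP n) (c : Lit n) : lv (app X c) = lv X ++ [c] := by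
  cases X <;> rfl

theorem app_good (X : GP n) (i : ℕ) (hf : fit X = i) (hs : sz X = i) (j : Fin n)
    (hj : ∀ a ∈ lv X, a.1 ≠ j) : fit (app X (j, true)) = i + 1 ∧ sz (app X (j, true)) = i + 1 := by
  have h1 := fitL_append (lv X) j hj
  have h2 : fit (app X (j, true)) = fitL (lv X ++ [(j, true)]) := by
    unfold fit
    rw [lv_app]
  have h3 : sz (app X (j, true)) = i + 1 := by
    unfold sz at hs ⊢
    rw [lv_app, List.length_append, hs]
    rfl
  have h4 := fit_le_sz (app X (j, true))
  have h5 : fitL (lv X) = i := hf
  omega

theorem exists_tree (i : ℕ) (hi : i ≤ n) : ∃ X : GP n, fit X = i ∧ sz X = i := by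
  induction i with
  | zero =>
    refine ⟨none, ?_, rfl⟩
    have := fit_le_sz (none : GP n)
    have h2 : sz (none : GP n) = 0 := rfl
    omega
  | succ i ih =>
    obtain ⟨X, hf, hs⟩ := ih (by omega)
    obtain ⟨j, hj⟩ := exists_new (lv X) (by unfold sz at hs; omega)
    exact ⟨app X (j, true), app_good X i hf hs j hj⟩

/-- Pareto optimality forces `sz = fit`. -/
theorem pareto (X : GP n) (h : ∀ Y : GP n, ¬ SD Y X) : sz X = fit X := by
  obtain ⟨Y, hf, hs⟩ := exists_tree (fit X) (fit_le X)
  have h1 := h Y
  have h2 := fit_le_sz X
  by_contra hne
  apply h1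
  refine ⟨⟨by omega, by omega⟩, Or.inr (by omega)⟩

theorem opt_of (P : Finset (GP n)) (h : ∀ i, i ≤ n → ∃ Z ∈ P, fit Z = i ∧ sz Z = i) : Opt P := by
  intro X hX
  have h1 := pareto X hX
  obtain ⟨Z, hZ, hf, hs⟩ := h (fit X) (fit_le X)
  exact ⟨Z, hZ, hf, by omega⟩

end Pool.V113.Smo
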