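import Pool.Agent.V113.Smo.Tree

namespace Pool.V113.Smo

variable {n : ℕ}

/-- Antichain of nonempty type. -/
def Inv (P : Finset (GP n)) : Prop := P.Nonempty ∧ ∀ X ∈ P, ∀ Y ∈ P, WD X Y → X = Y

/-- maximal size -/
def mx (P : Finset (GP n)) : ℕ := P.sup sz

/-- maximal fitness -/
def mf (P : Finset (GP n)) : ℕ := P.sup fit

/-- minimal size -/
noncomputable def mn (P : Finset (GP n)) : ℕ := sInf (sz '' (P : Set (GP n)))

theorem mn_le {P : Finset (GP n)} {X : GP n} (h : X ∈ P) : mn P ≤ sz X :=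
  Nat.sInf_le ⟨X, h, rfl⟩

theorem exists_mn {P : Finset (GP n)} (hP : P.Nonempty) : ∃ X ∈ P, sz X = mn P := by
  have h : (sz '' (P : Set (GP n))).Nonempty := (Finset.coe_nonempty.2 hP).image _
  obtain ⟨X, hX, e⟩ := Nat.sInf_mem h
  exact ⟨X, hX, e⟩

theorem le_mn {P : Finset (GP n)} (hP : P.Nonempty) (k : ℕ) (h : ∀ X ∈ P, k ≤ sz X) :
    k ≤ mn P := by
  obtain ⟨X, hX, e⟩ := exists_mn hP
  rw [← e]
  exact h X hX

theorem le_mx {P : Finset (GP n)} {X : GP n} (h : X ∈ P) : sz X ≤ mx P :=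
  Finset.le_sup (f := sz) h

theorem le_mf {P : Finset (GP n)} {X : GP n} (h : X ∈ P) : fit X ≤ mf P :=
  Finset.le_sup (f := fit) h

theorem mx_le {P : Finset (GP n)} (k : ℕ) (h : ∀ X ∈ P, sz X ≤ k) : mx P ≤ k :=
  Finset.sup_le h

theorem mf_le (P : Finset (GP n)) : mf P ≤ n := Finset.sup_le fun X _ => fit_le X

theorem mn_le_mx {P : Finset (GP n)} (hP : P.Nonempty) : mn P ≤ mx P := by
  obtain ⟨X, hX, e⟩ := exists_mn hP
  rw [← e]; exact le_mx hX

/-- The top member. -/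
theorem exists_top {P : Finset (GP n)} (h : Inv P) : ∃ X ∈ P, fit X = mf P ∧ sz X = mx P := by
  obtain ⟨X, hX, hmax⟩ := P.exists_max_image fit h.1
  have h1 : fit X = mf P := le_antisymm (le_mf hX) (Finset.sup_le hmax)
  refine ⟨X, hX, h1, le_antisymm (le_mx hX) (mx_le _ ?_)⟩
  intro Y hY
  by_contra hlt
  have h2 := h.2 X hX Y hY ⟨hmax Y hY, by omega⟩
  rw [h2] at hlt
  exact hlt le_rfl

theorem eq_of_sz {P : Finset (GP n)} (h : Inv P) {X Y : GP n} (hX : X ∈ P) (hY : Y ∈ P)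
    (e : sz X = sz Y) : X = Y := by
  rcases le_total (fit X) (fit Y) with h1 | h1
  · exact (h.2 Y hY X hX ⟨h1, e.ge⟩).symm
  · exact h.2 X hX Y hY ⟨h1, e.le⟩

theorem eq_of_fit {P : Finset (GP n)} (h : Inv P) {X Y : GP n} (hX : X ∈ P) (hY : Y ∈ P)
    (e : fit X = fit Y) : X = Y := by
  rcases le_total (sz X) (sz Y) with h1 | h1
  · exact h.2 X hX Y hY ⟨e.ge, h1⟩
  · exact (h.2 Y hY X hX ⟨e.le, h1⟩).symm

theorem card_le {P : Finset (GP n)} (h : Inv P) : P.card ≤ n + 1 := by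
  have h1 : P.card ≤ (Finset.range (n + 1)).card := by
    apply Finset.card_le_card_of_injOn fit
    · intro X _
      rw [Finset.mem_coe, Finset.mem_range]
      have := fit_le X
      omega
    · intro X hX Y hY e
      exact eq_of_fit h hX hY e
  rwa [Finset.card_range] at h1

theorem upd_rej {P : Finset (GP n)} {Z : GP n} (h : ∃ X ∈ P, SD X Z) : upd P Z = P := if_pos h

theorem upd_acc {P : Finset (GP n)} {Z : GP n} (h : ¬ ∃ X ∈ P, SD X Z) :
    upd P Z = insert Z (P.filter (fun X => ¬ WD Z X)) := if_neg h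

theorem inv_upd {P : Finset (GP n)} (h : Inv P) (Z : GP n) : Inv (upd P Z) := by
  by_cases hr : ∃ X ∈ P, SD X Z
  · rw [upd_rej hr]; exact h
  rw [upd_acc hr]
  refine ⟨Finset.insert_nonempty _ _, ?_⟩
  intro X hX Y hY hXY
  rw [Finset.mem_insert, Finset.mem_filter] at hX hY
  rcases hX with rfl | hX
  · rcases hY with rfl | hY
    · rfl
    · exact absurd hXY hY.2
  · rcases hY with rfl | hY
    · exfalso
      apply hX.2
      have h1 : ¬ SD X Y := fun hh => hr ⟨X, hX.1, hh⟩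
      unfold SD at h1
      push Not at h1
      have h2 := h1 hXY
      exact ⟨h2.1, h2.2⟩
    · exact h.2 X hX.1 Y hY.1 hXY

theorem mem_upd {P : Finset (GP n)} {Z X : GP n} (h : X ∈ upd P Z) : X = Z ∨ X ∈ P := by
  by_cases hr : ∃ X ∈ P, SD X Z
  · rw [upd_rej hr] at h; exact Or.inr h
  · rw [upd_acc hr, Finset.mem_insert, Finset.mem_filter] at h
    rcases h with h | h
    · exact Or.inl h
    · exact Or.inr h.1

/-- A member of the old population is weakly dominated by a member of the new one. -/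
theorem upd_dom {P : Finset (GP n)} {Z X : GP n} (h : X ∈ P) : ∃ Y ∈ upd P Z, WD Y X := by
  by_cases hr : ∃ X ∈ P, SD X Z
  · rw [upd_rej hr]; exact ⟨X, h, le_rfl, le_rfl⟩
  · rw [upd_acc hr]
    by_cases h1 : WD Z X
    · exact ⟨Z, Finset.mem_insert_self _ _, h1⟩
    · exact ⟨X, Finset.mem_insert_of_mem (Finset.mem_filter.2 ⟨h, h1⟩), le_rfl, le_rfl⟩

theorem mf_upd {P : Finset (GP n)} (h : Inv P) (Z : GP n) : mf P ≤ mf (upd P Z) := by
  obtain ⟨X, hX, hf, -⟩ := exists_top h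
  obtain ⟨Y, hY, hd⟩ := upd_dom (Z := Z) hX
  rw [← hf]
  exact hd.1.trans (le_mf hY)

theorem mn_upd {P : Finset (GP n)} (h : Inv P) (Z : GP n) (k : ℕ) (h1 : k ≤ mn P)
    (h2 : k ≤ sz Z) : k ≤ mn (upd P Z) := by
  apply le_mn (inv_upd h Z).1
  intro X hX
  rcases mem_upd hX with rfl | hX
  · exact h2
  · exact h1.trans (mn_le hX)

theorem mn_upd_le {P : Finset (GP n)} (h : Inv P) (Z : GP n) : mn (upd P Z) ≤ mn P := by
  obtain ⟨X, hX, e⟩ := exists_mn h.1
  obtain ⟨Y, hY, hd⟩ := upd_dom (Z := Z) hX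
  rw [← e]
  exact (mn_le hY).trans hd.2

theorem mx_upd {P : Finset (GP n)} (Z : GP n) (k : ℕ) (h1 : mx P ≤ k)
    (h2 : sz Z ≤ k) : mx (upd P Z) ≤ k := by
  apply mx_le
  intro X hX
  rcases mem_upd hX with rfl | hX
  · exact h2
  · exact (le_mx hX).trans h1

/-- Case (C): an offspring larger than every member. -/
theorem upd_big {P : Finset (GP n)} (h : Inv P) (Z : GP n) (hZ : sz Z = mx P + 1) :
    upd P Z = P ∨ (mf P + 1 ≤ mf (upd P Z) ∧ mx (upd P Z) ≤ mx P + 1 ∧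
      mn P ≤ mn (upd P Z)) := by
  by_cases hr : ∃ X ∈ P, SD X Z
  · left; exact upd_rej hr
  right
  obtain ⟨X, hX, hf, hs⟩ := exists_top h
  have h1 : ¬ SD X Z := fun hh => hr ⟨X, hX, hh⟩
  have h2 : mf P < fit Z := by
    by_contra hcon
    exact h1 ⟨⟨by omega, by omega⟩, Or.inr (by omega)⟩
  have h3 : Z ∈ upd P Z := by
    rw [upd_acc hr]; exact Finset.mem_insert_self _ _
  refine ⟨?_, mx_upd Z _ (by omega) (by omega), mn_upd h Z _ le_rfl ?_⟩
  · have := le_mf h3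
    omega
  · have := mn_le_mx h.1
    omega

/-- Case (D): the offspring of the top member loses a leaf but no fitness. -/
theorem upd_gain {P : Finset (GP n)} (h : Inv P) (Z : GP n) (hf : mf P ≤ fit Z)
    (hZ : sz Z + 1 = mx P) : mx (upd P Z) + 1 ≤ mx P := by
  by_cases hr : ∃ X ∈ P, SD X Z
  · exfalso
    obtain ⟨X, hX, hd⟩ := hr
    obtain ⟨T, hT, hTf, hTs⟩ := exists_top h
    have h1 : fit X = fit T := by
      have := le_mf hX
      have := hd.1.1
      omega
    have h2 := eq_of_fit h hX hT h1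
    have h3 := hd.1.2
    rw [h2] at h3
    omega
  · rw [upd_acc hr]
    have : mx (insert Z (P.filter (fun X => ¬ WD Z X))) ≤ sz Z := by
      apply mx_le
      intro X hX
      rw [Finset.mem_insert, Finset.mem_filter] at hX
      rcases hX with rfl | hX
      · exact le_rfl
      · by_contra hcon
        apply hX.2
        refine ⟨(le_mf hX.1).trans hf, by omega⟩
    omega

/-- The objective vector `(i, i)` is attained. -/
def Att (P : Finset (GP n)) (i : ℕ) : Prop := ∃ Z ∈ P, fit Z = i ∧ sz Z = i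

theorem att_upd {P : Finset (GP n)} {i : ℕ} (h : Att P i) (Z : GP n) : Att (upd P Z) i := by
  obtain ⟨X, hX, hf, hs⟩ := h
  obtain ⟨Y, hY, hd⟩ := upd_dom (Z := Z) hX
  have h1 := fit_le_sz Y
  have h2 := hd.1
  have h3 := hd.2
  exact ⟨Y, hY, by omega, by omega⟩

theorem att_new {P : Finset (GP n)} {i : ℕ} (Z : GP n) (hf : fit Z = i) (hs : sz Z = i) :
    Att (upd P Z) i := by
  by_cases hr : ∃ X ∈ P, SD X Z
  · obtain ⟨X, hX, hd⟩ := hr
    exfalso
    have h1 := fit_le_sz X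
    have h2 := hd.1.1
    have h3 := hd.1.2
    rcases hd.2 with h4 | h4 <;> omega
  · rw [upd_acc hr]
    exact ⟨Z, Finset.mem_insert_self _ _, hf, hs⟩

theorem mn_new {P : Finset (GP n)} (Z : GP n) (hs : sz Z < mn P) : mn (upd P Z) ≤ sz Z := by
  by_cases hr : ∃ X ∈ P, SD X Z
  · obtain ⟨X, hX, hd⟩ := hr
    have h1 := mn_le hX
    have h3 := hd.1.2
    omega
  · rw [upd_acc hr]
    exact mn_le (Finset.mem_insert_self _ _)

end Pool.V113.Smo
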